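import Pool.Agent.Work.MP_05d08f_al.AS.Main

set_option autoImplicit false

/-!
# MP_05d08f_al, the extended asymptotic theorem: definitions

* `Dag m i`: a finite product of cyclic groups `G = ∏ ZMod (q u)` (any `q u ≥ 1`) with degrees `h j`
  having pairwise different subset sums off `i` (a generalisation of `Dat m i`).
* `Good c d`: the data `d` is good for the coefficients `c` over `K`.
* `DB tz d₁ d₂ A`: `A` is similar to a matrix whose diagonal blocks (indexed by the groups of `d₁`, `d₂`)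
  are diagonal matrices (of trace zero, if `tz` holds).
-/

namespace ALK

open Matrix Equiv MLI

/-- Degrees in a finite product of cyclic groups with pairwise different subset sums. -/
structure Dag (m : ℕ) (i : Fin m) where
  k : ℕ
  q : Fin k → ℕ
  hq : ∀ u, q u ≠ 0
  h : Fin m → ∀ u, ZMod (q u)
  hi : h i = 0
  hsub : ∀ A A' : Finset (Fin m), i ∉ A → i ∉ A' → ∑ j ∈ A, h j = ∑ j ∈ A', h j → A = A'

namespace Dag

variable {m : ℕ} {i : Fin m}

/-- The group (ring) of the data. -/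
abbrev G (d : Dag m i) : Type := ∀ u : Fin d.k, ZMod (d.q u)

instance (d : Dag m i) (u : Fin d.k) : NeZero (d.q u) := ⟨d.hq u⟩

end Dag

/-- A `Dat` is a `Dag`. -/
def Dat.dag {m : ℕ} {i : Fin m} (d : Dat m i) : Dag m i :=
  ⟨d.k, d.p, fun u => (d.hp u).ne_zero, d.h, d.hi, d.hsub⟩

/-- The data `d` is good for `c`. -/
def Good {K : Type*} [Field K] {m : ℕ} {i : Fin m} (c : Perm (Fin m) → K) (d : Dag m i) : Prop :=
  (Fintype.card d.G : K) ≠ 0 ∧ ∃ (D : Fin m → d.G → K) (φ : d.G → K), (φ = 0 ∨ TL c i) ∧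
    (LamD c i d.h D φ).det ≠ 0

/-- `A` is similar to a matrix with diagonal diagonal blocks indexed by the groups of `d₁`, `d₂`; the
blocks have trace zero if `tz` holds. -/
def DB {K : Type*} [Field K] {m : ℕ} {i : Fin m} (tz : Prop) (d₁ d₂ : Dag m i) {ι : Type*} [Fintype ι]
    [DecidableEq ι] (A : Matrix ι ι K) : Prop :=
  ∃ (β : Type) (_ : Fintype β) (_ : DecidableEq β) (d : β → Dag m i)
    (A' : Matrix (Σ b, (d b).G) (Σ b, (d b).G) K), (∀ b, d b = d₁ ∨ d b = d₂) ∧ Sim A A' ∧
    ∀ b, ∃ y : (d b).G → K, (tz → ∑ x, y x = 0) ∧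
      ∀ x x', A' ⟨b, x⟩ ⟨b, x'⟩ = if x = x' then y x else 0

end ALK
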