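import Pool.Agent.Work.MP_05d08f_al.AX.U1
import Pool.Agent.Work.MP_05d08f_al.AX.Defs

set_option autoImplicit false

/-!
# U2: transfer from infinite fields to large finite fields
-/

namespace ALK

open Matrix Equiv MLI

private def evR {R : Type*} [CommRing R] {m n : ℕ} (c : Perm (Fin m) → R)
    (a : Fin m → Matrix (Fin n) (Fin n) R) : Matrix (Fin n) (Fin n) R :=
  ∑ σ : Perm (Fin m), c σ • (List.ofFn fun k => a (σ k)).prod

private theorem evR_map {R S : Type*} [CommRing R] [CommRing S] (f : R →+* S) {m n : ℕ}
    (c : Perm (Fin m) → R) (a : Fin m → Matrix (Fin n) (Fin n) R) :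
    evR (fun σ => f (c σ)) (fun j => f.mapMatrix (a j)) = f.mapMatrix (evR c a) := by
  unfold evR
  rw [map_sum]
  refine Finset.sum_congr rfl fun σ _ => ?_
  have h1 : f.mapMatrix (c σ • (List.ofFn fun k => a (σ k)).prod) =
      f (c σ) • f.mapMatrix ((List.ofFn fun k => a (σ k)).prod) := by
    ext x y
    rw [RingHom.mapMatrix_apply, Matrix.map_apply, Matrix.smul_apply, Matrix.smul_apply,
      RingHom.mapMatrix_apply, Matrix.map_apply, smul_eq_mul, smul_eq_mul, map_mul]
  rw [h1, map_list_prod, List.map_ofFn]
  rfl

/-- The hypothesis on `B`. -/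
def HypB {K : Type*} [Field K] {m n : ℕ} (c : Perm (Fin m) → K) (B : Matrix (Fin n) (Fin n) K) :
    Prop :=
  (∃ a : Fin m → Matrix (Fin n) (Fin n) K, (ev c a).trace ≠ 0) ∨
    (B.trace = 0 ∧ ((n : K) ≠ 0 ∨ B = 0 ∨ ∀ t : K, B ≠ t • (1 : Matrix (Fin n) (Fin n) K)))

theorem transfer (m n : ℕ)
    (h : ∀ (K : Type) [Field K] [Infinite K] (c : Perm (Fin m) → K), c ≠ 0 →
      ∀ B : Matrix (Fin n) (Fin n) K, HypB c B → ∃ a : Fin m → Matrix (Fin n) (Fin n) K, ev c a = B) :
    ∃ q₀ : ℕ, ∀ (K : Type) [Field K], (Infinite K ∨ q₀ ≤ Nat.card K) →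
      ∀ c : Perm (Fin m) → K, c ≠ 0 → ∀ B : Matrix (Fin n) (Fin n) K, HypB c B →
        ∃ a : Fin m → Matrix (Fin n) (Fin n) K, ev c a = B := by
  classical
  by_contra hcon
  push Not at hcon
  choose K hK hcard c hc B hB hno using hcon
  have hfin : ∀ q, Finite (K q) := by
    intro q
    by_contra hinf
    rw [not_finite_iff_infinite] at hinf
    obtain ⟨a, ha⟩ := h (K q) (c q) (hc q) (B q) (hB q)
    exact hno q a ha
  have hcard' : ∀ q, q ≤ Nat.card (K q) := by
    intro q
    rcases hcard q with h1 | h1
    · exact absurd (hfin q) (not_finite_iff_infinite.2 h1)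
    · exact h1
  obtain ⟨F, iF, iI, π, U, hπ, hU⟩ := exists_ultra K hcard'
  have hU' : ∀ x y : ∀ q, K q, π x = π y ↔ ∀ᶠ q in (U : Filter ℕ), x q = y q := by
    intro x y
    rw [← sub_eq_zero, ← map_sub, hU]
    simp only [Pi.sub_apply, sub_eq_zero]
  -- the coefficients
  let cR : Perm (Fin m) → ∀ q, K q := fun σ q => c q σ
  let BR : Matrix (Fin n) (Fin n) (∀ q, K q) := fun x y q => B q x y
  have hev : ∀ (A : Fin m → Matrix (Fin n) (Fin n) (∀ q, K q)) (q : ℕ) (x y : Fin n),
      ev (c q) (fun j => (Pi.evalRingHom K q).mapMatrix (A j)) x y = evR cR A x y q := by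
    intro A q x y
    have h1 := evR_map (Pi.evalRingHom K q) cR A
    have h2 := congrFun (congrFun h1 x) y
    exact h2
  have hevF : ∀ (A : Fin m → Matrix (Fin n) (Fin n) (∀ q, K q)) (x y : Fin n),
      ev (fun σ => π (cR σ)) (fun j => π.mapMatrix (A j)) x y = π (evR cR A x y) := by
    intro A x y
    have h1 := evR_map π cR A
    exact congrFun (congrFun h1 x) y
  have hc' : (fun σ => π (cR σ)) ≠ 0 := by
    intro h0
    have h1 : ∀ σ, ∀ᶠ q in (U : Filter ℕ), cR σ q = 0 := fun σ => (hU _).1 (congrFun h0 σ)
    obtain ⟨q, hq⟩ := (Filter.eventually_all.2 h1).exists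
    exact hc q (funext hq)
  have hB' : HypB (fun σ => π (cR σ)) (π.mapMatrix BR) := by
    have hor : (∀ᶠ q in (U : Filter ℕ), ∃ a : Fin m → Matrix (Fin n) (Fin n) (K q),
        (ev (c q) a).trace ≠ 0) ∨ ∀ᶠ q in (U : Filter ℕ), ((B q).trace = 0 ∧
          ((n : K q) ≠ 0 ∨ B q = 0 ∨ ∀ t : K q, B q ≠ t • (1 : Matrix (Fin n) (Fin n) (K q)))) :=
      Ultrafilter.eventually_or.1 (Filter.Eventually.of_forall fun q => hB q)
    rcases hor with h1 | h1
    · left
      let a : ∀ q, Fin m → Matrix (Fin n) (Fin n) (K q) := fun q =>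
        if h : ∃ a : Fin m → Matrix (Fin n) (Fin n) (K q), (ev (c q) a).trace ≠ 0 then
          Classical.choose h else 0
      have ha : ∀ q, (∃ a : Fin m → Matrix (Fin n) (Fin n) (K q), (ev (c q) a).trace ≠ 0) →
          (ev (c q) (a q)).trace ≠ 0 := by
        intro q hq
        have h2 : a q = Classical.choose hq := dif_pos hq
        rw [h2]
        exact Classical.choose_spec hq
      let A : Fin m → Matrix (Fin n) (Fin n) (∀ q, K q) := fun j x y q => a q j x y
      refine ⟨fun j => π.mapMatrix (A j), fun h0 => ?_⟩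
      have h2 : π (∑ x, evR cR A x x) = 0 := by
        rw [map_sum, ← h0, Matrix.trace]
        exact Finset.sum_congr rfl fun x _ => (hevF A x x).symm
      rw [hU] at h2
      obtain ⟨q, hq1, hq2⟩ := (h1.and h2).exists
      apply ha q hq1
      rw [Finset.sum_apply] at hq2
      rw [Matrix.trace, ← hq2]
      exact Finset.sum_congr rfl fun x _ => (hev A q x x)
    · right
      constructor
      · have h2 : (π.mapMatrix BR).trace = π (∑ x, BR x x) := by
          rw [map_sum]
          rfl
        rw [h2, hU]
        filter_upwards [h1] with q hq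
        rw [Finset.sum_apply]
        exact hq.1
      · have h2 := h1.mono fun q hq => hq.2
        rcases Ultrafilter.eventually_or.1 h2 with h3 | h3
        · left
          intro h0
          have h4 : π ((n : ∀ q, K q)) = 0 := by rw [map_natCast]; exact h0
          rw [hU] at h4
          obtain ⟨q, hq1, hq2⟩ := (h3.and h4).exists
          exact hq1 hq2
        · right
          rcases Ultrafilter.eventually_or.1 h3 with h4 | h4
          · left
            ext x y
            show π (BR x y) = 0
            rw [hU]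
            filter_upwards [h4] with q hq
            show B q x y = 0
            rw [hq]
            rfl
          · right
            intro t ht
            obtain ⟨τ, rfl⟩ := hπ t
            have h5 : ∀ x y, ∀ᶠ q in (U : Filter ℕ),
                B q x y = (τ q • (1 : Matrix (Fin n) (Fin n) (K q))) x y := by
              intro x y
              have h6 : π (BR x y) = π (fun q => (τ q • (1 : Matrix (Fin n) (Fin n) (K q))) x y) := by
                have h7 := congrFun (congrFun ht x) y
                rw [RingHom.mapMatrix_apply, Matrix.map_apply, Matrix.smul_apply, smul_eq_mul,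
                  Matrix.one_apply] at h7
                rw [h7]
                by_cases hxy : x = y
                · rw [if_pos hxy, mul_one]
                  congr 1
                  funext q
                  rw [Matrix.smul_apply, smul_eq_mul, Matrix.one_apply, if_pos hxy, mul_one]
                · rw [if_neg hxy, mul_zero, ← map_zero π]
                  congr 1
                  funext q
                  rw [Matrix.smul_apply, smul_eq_mul, Matrix.one_apply, if_neg hxy, mul_zero]
                  rfl
              exact (hU' _ _).1 h6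
            have h6 := Filter.eventually_all.2 fun x => Filter.eventually_all.2 (h5 x)
            obtain ⟨q, hq1, hq2⟩ := (h4.and h6).exists
            exact hq1 (τ q) (by ext x y; exact hq2 x y)
  obtain ⟨a, ha⟩ := h F (fun σ => π (cR σ)) hc' (π.mapMatrix BR) hB'
  choose A0 hA using fun j x y => hπ (a j x y)
  let A : Fin m → Matrix (Fin n) (Fin n) (∀ q, K q) := fun j => Matrix.of (A0 j)
  have haA : a = fun j => π.mapMatrix (A j) := by
    funext j
    ext x y
    exact (hA j x y).symm
  have h1 : ∀ x y, ∀ᶠ q in (U : Filter ℕ), evR cR A x y q = B q x y := by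
    intro x y
    have h2 : π (evR cR A x y) = π (BR x y) := by
      rw [← hevF, ← haA, ha]
      rfl
    exact (hU' _ _).1 h2
  have h2 := Filter.eventually_all.2 fun x => Filter.eventually_all.2 (h1 x)
  obtain ⟨q, hq⟩ := h2.exists
  apply hno q (fun j => (Pi.evalRingHom K q).mapMatrix (A j))
  ext x y
  rw [hev, hq]

end ALK
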