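import Pool.Agent.Work.MP_05d08f_al.AX.Main
import Pool.Agent.Work.MP_05d08f_al.AX.U2

set_option autoImplicit false

/-!
# Final: the Lvov-Kaplansky conjecture for large matrices over large fields
-/

namespace ALK

open Matrix Equiv MLI

theorem main_final (m : ℕ) (hm : 0 < m) : ∃ N : ℕ, ∀ n : ℕ, N ≤ n → ∃ q₀ : ℕ,
    ∀ (K : Type) [Field K], (Infinite K ∨ q₀ ≤ Nat.card K) → ∀ c : Perm (Fin m) → K, c ≠ 0 →
      ∀ B : Matrix (Fin n) (Fin n) K, HypB c B →
        ∃ a : Fin m → Matrix (Fin n) (Fin n) K, ev c a = B := by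
  obtain ⟨N, hN⟩ := main_all m ⟨0, hm⟩
  refine ⟨N, fun n hn => transfer m n ?_⟩
  intro K _ _ c hc B hB
  refine hN K c hc n hn B fun hTL => ?_
  rcases hB with ⟨a, ha⟩ | ⟨htr, hB⟩
  · exact absurd (tl_trace c _ hTL a) ha
  · refine ⟨htr, ?_⟩
    rcases hB with h | h | h
    · by_cases h0 : ∃ t : K, B = t • (1 : Matrix (Fin n) (Fin n) K)
      · obtain ⟨t, ht⟩ := h0
        rw [ht, Matrix.trace_smul, Matrix.trace_one, Fintype.card_fin, smul_eq_mul,
          mul_eq_zero] at htr
        rcases htr with h1 | h1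
        · left; rw [ht, h1, zero_smul]
        · exact absurd h1 h
      · right
        push Not at h0
        exact h0
    · exact Or.inl h
    · exact Or.inr h

end ALK
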