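import Pool.Agent.Work.MP_05d08f_al.AX.Defs

set_option autoImplicit false

/-!
# X1: matrices with diagonal diagonal blocks are values (size S-M, adapt `AS/E10.lean`)

Copy the proof of `hit_diag` (AS/E10), which carries over verbatim with `Dag` instead of `Dat`, except for
the last step (the diagonal blocks): let `p` be a block, `A_pp = diagonal y`.
 * If `TL c i`, then `∑ y = 0` and `diag_hit` (AS/E08) applies as before.
 * If `¬ TL c i`, then `φ_p = 0` (from `φ = 0 ∨ TL c i`) and there is no condition on `y`: we need `ζ` with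
   `Lam c i h c0 D D *ᵥ ζ = y`, `c0 = - ∑ j, h j`, where `det (Lam …) = det (LamD c i h D 0) ≠ 0`; then
   `Phi c i X X (Gm c0 ζ) = Gm (c0 + ∑ h - h i) (Lam *ᵥ ζ) = Gm 0 y = diagonal y` (`MLI.Phi_Gm`, see the
   proof of `diag_hit`).
-/

namespace ALK

open Equiv MLI Matrix

variable {m : ℕ} {K : Type*} [Field K]

private theorem diag_any {G : Type*} [AddCommGroup G] [Fintype G] [DecidableEq G]
    (c : Perm (Fin m) → K) (i : Fin m) (h : Fin m → G) (hi : h i = 0) (D : Fin m → G → K)
    (φ : G → K) (hφ : φ = 0) (hdet : (LamD c i h D φ).det ≠ 0) (y : G → K) :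
    ∃ z : Matrix G G K, Phi c i (fun j => Gm (h j) (D j)) (fun j => Gm (h j) (D j)) z =
      Matrix.diagonal y := by
  have e : LamD c i h D φ = Lam c i h (-∑ j, h j) D D := by
    ext a b
    simp [LamD, hφ]
  rw [e] at hdet
  obtain ⟨ζ, hζ⟩ := Phi_Gm_surj c i h (-∑ j, h j) D D hdet y
  refine ⟨_, hζ.trans ?_⟩
  rw [hi, sub_zero, neg_add_cancel]
  ext a b
  rw [Gm_apply, add_zero, Matrix.diagonal_apply]
  by_cases hab : a = b
  · simp [hab]
  · simp [hab, Ne.symm hab]

theorem hit_all [Infinite K] (c : Perm (Fin m) → K) (hc : c ≠ 0) (i : Fin m) {β : Type}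
    [Fintype β] [DecidableEq β] (d : β → Dag m i) (hd : ∀ b, Good c (d b))
    (A : Matrix (Σ b, (d b).G) (Σ b, (d b).G) K)
    (hA : ∀ b, ∃ y : (d b).G → K, (TL c i → ∑ x, y x = 0) ∧
      ∀ x x', A ⟨b, x⟩ ⟨b, x'⟩ = if x = x' then y x else 0) :
    ∃ a : Fin m → Matrix (Σ b, (d b).G) (Σ b, (d b).G) K, ev c a = A := by
  have hcard : ∀ b, (Fintype.card (d b).G : K) ≠ 0 := fun b => (hd b).1
  choose D0 φ hφ hdet using fun b => (hd b).2
  let J : Type := Σ b : β, Fin m × (d b).G
  let Dw : (J → K) → ∀ b, Fin m → (d b).G → K := fun w b j x => w ⟨b, (j, x)⟩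
  have hDw : ∀ b j x, IsPoly (fun w : J → K => Dw w b j x) := fun b j x => IsPoly.coord _
  obtain ⟨w, hw⟩ := exists_common (J := J) (K := K) (ι := β × β) Finset.univ
    (P := fun t w => if t.1 = t.2 then (LamD c i (d t.1).h (Dw w t.1) (φ t.1)).det else
      (Pmat c i (fun j => Gm ((d t.1).h j) (Dw w t.1 j))
        (fun j => Gm ((d t.2).h j) (Dw w t.2 j))).det) (by
      intro t _
      refine MLI.IsPoly.ite _ ?_ ?_
      · refine MLI.IsPoly.det fun a a' => ?_
        simp only [LamD, Lam, Matrix.add_apply, Matrix.of_apply]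
        refine MLI.IsPoly.add (MLI.IsPoly.sum _ fun σ _ => MLI.IsPoly.ite _
          ((MLI.IsPoly.const _).mul ((IsPoly.wt _ (hDw t.1) _ _).mul (IsPoly.wt _ (hDw t.1) _ _)))
          (MLI.IsPoly.const _)) (MLI.IsPoly.const _)
      · refine IsPoly.Pmat c i (X := fun w j => Gm ((d t.1).h j) (Dw w t.1 j))
          (Y := fun w j => Gm ((d t.2).h j) (Dw w t.2 j)) (fun j a b => ?_) (fun j a b => ?_)
        · simp only [Gm_apply]
          exact MLI.IsPoly.ite _ (hDw _ _ _) (MLI.IsPoly.const _)
        · simp only [Gm_apply]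
          exact MLI.IsPoly.ite _ (hDw _ _ _) (MLI.IsPoly.const _)) (by
      rintro ⟨p, q⟩ _
      by_cases hpq : p = q
      · refine ⟨fun t => D0 t.1 t.2.1 t.2.2, ?_⟩
        simp only [if_pos hpq]
        exact hdet p
      · obtain ⟨E, E', hE⟩ := exists_bij c hc i (d p).h (d q).h (d p).hsub (d q).hsub
        let F : ∀ b, Fin m → (d b).G → K :=
          Function.update (Function.update (fun _ _ _ => 0) q E') p E
        have hFp : F p = E := Function.update_self _ _ _
        have hFq : F q = E' := by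
          have h1 : F q = Function.update (fun b => (fun _ _ => 0 : Fin m → (d b).G → K)) q E' q :=
            Function.update_of_ne (fun h => hpq h.symm) _ _
          rw [h1, Function.update_self]
        refine ⟨fun t => F t.1 t.2.1 t.2.2, ?_⟩
        simp only [if_neg hpq]
        have h2 : Dw (fun t => F t.1 t.2.1 t.2.2) p = E := hFp
        have h3 : Dw (fun t => F t.1 t.2.1 t.2.2) q = E' := hFq
        rw [h2, h3]
        exact hE)
  refine hit_of_blocks (s := fun b : β => (d b).G) c i
    (fun j b => Gm ((d b).h j) (Dw w b j)) A fun p q => ?_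
  by_cases hpq : p = q
  · subst hpq
    have h1 := hw (p, p) (Finset.mem_univ _)
    simp only [if_true] at h1
    obtain ⟨y, hy, hAy⟩ := hA p
    obtain ⟨z, hz⟩ : ∃ z : Matrix (d p).G (d p).G K, Phi c i (fun j => Gm ((d p).h j) (Dw w p j))
        (fun j => Gm ((d p).h j) (Dw w p j)) z = Matrix.diagonal y := by
      by_cases hT : TL c i
      · exact diag_hit c i (d p).h (d p).hi (Dw w p) (φ p) (hφ p) h1 (hcard p) y (hy hT)
      · exact diag_any c i (d p).h (d p).hi (Dw w p) (φ p) ((hφ p).resolve_right hT) h1 y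
    refine ⟨z, hz.trans ?_⟩
    ext x x'
    rw [Matrix.diagonal_apply, Matrix.of_apply, hAy]
  · have h1 := hw (p, q) (Finset.mem_univ _)
    simp only [if_neg hpq] at h1
    exact Phi_surj_of_det c i _ _ h1 _

end ALK
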