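import Pool.Agent.Work.MP_05d08f_al.AX.Defs

set_option autoImplicit false

/-!
# X4: scalar plus small rank (size M; adapt `AS/A18.lean` and `low_value` in `AS/Main.lean`)

Let `g₁ = card d₁.G`, `g₂ = card d₂.G`, `n = card ι`. As `n ≥ g₁ g₂` and `g₁, g₂` are coprime,
`n = x g₁ + y g₂` (`exists_rep`); `β = Fin x ⊕ Fin y`, `d = Sum.elim (fun _ => d₁) (fun _ => d₂)`, and
`card β ≥ 2 σ + 1` (see the proof of `low_value` in AS/Main.lean, copy it).
 * If `tz` holds: `scalar_low` (AS/A18) with `H b = (d b).G` gives the claim.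
 * If `tz` does not hold: let `N = B - t • 1`, `s = card β`; `low_nf` (AS/A15) gives
   `Sim N (fromBlocks N₀ 0 0 0)`, `N₀ ∈ M_s(K)`, and the same construction as in the proof of `scalar_low`,
   with `N₁ = N₀` (no condition on the diagonal, no Fillmore, `N₀` may be scalar or zero), gives
   `A = (fromBlocks N₀ 0 0 0).submatrix g g + t • 1` with diagonal diagonal blocks
   `y x = t + (if x = x_b then N₀ (e.symm b) (e.symm b) else 0)`.
-/

namespace ALK

open Matrix Equiv MLI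

variable {K : Type*} [Field K] {m : ℕ} {i : Fin m} {tz : Prop} {d₁ d₂ : Dag m i}
  {ι : Type*} [Fintype ι] [DecidableEq ι]

private theorem exists_reidx {β : Type} [Fintype β] [DecidableEq β] (H : β → Type)
    [∀ b, Fintype (H b)] [∀ b, DecidableEq (H b)] (x0 : ∀ b, H b) {s n₁ : ℕ} (e : Fin s ≃ β)
    (hc : Fintype.card (Σ b, H b) = s + n₁) :
    ∃ g : (Σ b, H b) ≃ Fin s ⊕ Fin n₁, ∀ b, g ⟨b, x0 b⟩ = Sum.inl (e.symm b) := by
  classical
  let f : β → Σ b, H b := fun b => ⟨b, x0 b⟩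
  have hf : Function.Injective f := fun b b' h => congrArg Sigma.fst h
  have hs : Fintype.card β = s := by
    rw [← Fintype.card_congr e, Fintype.card_fin]
  have h1 : Fintype.card ((Set.range f)ᶜ : Set (Σ b, H b)) = n₁ := by
    rw [Fintype.card_compl_set, Set.card_range_of_injective hf, hc, hs]
    omega
  let e2 : Fin n₁ ≃ ((Set.range f)ᶜ : Set (Σ b, H b)) := (Fintype.equivFinOfCardEq h1).symm
  let G : Fin s ⊕ Fin n₁ ≃ Σ b, H b :=
    (Equiv.sumCongr (e.trans (Equiv.ofInjective f hf)) e2).trans (Equiv.Set.sumCompl (Set.range f))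
  have hG : ∀ a, G (Sum.inl a) = ⟨e a, x0 (e a)⟩ := by
    intro a
    change (Equiv.Set.sumCompl (Set.range f)) (Sum.inl (Equiv.ofInjective f hf (e a))) = _
    rw [Equiv.Set.sumCompl_apply_inl]
    rfl
  refine ⟨G.symm, fun b => ?_⟩
  rw [Equiv.symm_apply_eq, hG, e.apply_symm_apply]

private theorem scalar_any {β : Type} [Fintype β] [DecidableEq β] (H : β → Type)
    [∀ b, Fintype (H b)] [∀ b, DecidableEq (H b)] [∀ b, Nonempty (H b)] (B : Matrix ι ι K) (t : K)
    (σ : ℕ) (hrank : (B - t • (1 : Matrix ι ι K)).rank ≤ σ)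
    (hcard : Fintype.card ι = ∑ b, Fintype.card (H b)) (hβ : 2 * σ + 1 ≤ Fintype.card β) :
    ∃ A : Matrix (Σ b, H b) (Σ b, H b) K, Sim B A ∧
      ∀ b, ∃ y : H b → K, ∀ x x', A ⟨b, x⟩ ⟨b, x'⟩ = if x = x' then y x else 0 := by
  have hle : Fintype.card β ≤ Fintype.card ι := by
    rw [hcard, ← Finset.card_univ, Finset.card_eq_sum_ones]
    exact Finset.sum_le_sum fun b _ => Fintype.card_pos
  obtain ⟨n₁, hn₁⟩ := Nat.exists_eq_add_of_le hle
  obtain ⟨N₀, hN₀⟩ := low_nf (B - t • (1 : Matrix ι ι K)) σ (Fintype.card β) n₁ hrank (by omega) hn₁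
  let e : Fin (Fintype.card β) ≃ β := (Fintype.equivFin β).symm
  have hx0 : ∀ b, ∃ x : H b, True := fun b => ⟨Classical.arbitrary _, trivial⟩
  choose x0 _ using hx0
  obtain ⟨g, hg⟩ := exists_reidx H x0 e (n₁ := n₁) (by
    rw [Fintype.card_sigma, ← hcard, hn₁])
  have hg' : ∀ (b : β) (x : H b), x ≠ x0 b → ∃ k, g ⟨b, x⟩ = Sum.inr k := by
    intro b x hx
    rcases h : g ⟨b, x⟩ with a | k
    · exfalso
      apply hx
      have h1 := hg (e a)
      rw [e.symm_apply_apply, ← h] at h1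
      have h2 := g.injective h1
      obtain ⟨h3, h4⟩ := Sigma.mk.inj_iff.1 h2
      subst h3
      exact (eq_of_heq h4).symm
    · exact ⟨k, rfl⟩
  let A' : Matrix (Σ b, H b) (Σ b, H b) K :=
    (Matrix.fromBlocks N₀ 0 0 (0 : Matrix (Fin n₁) (Fin n₁) K)).submatrix g g
  have hsim : Sim B (A' + t • (1 : Matrix (Σ b, H b) (Σ b, H b) K)) := by
    have h1 := (hN₀.trans (Sim.submatrix _ g)).add_smul t
    rwa [sub_add_cancel] at h1
  refine ⟨_, hsim, fun b => ⟨fun x => t + if x = x0 b then N₀ (e.symm b) (e.symm b) else 0, ?_⟩⟩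
  intro x x'
  have h1 : (A' + t • (1 : Matrix (Σ b, H b) (Σ b, H b) K)) ⟨b, x⟩ ⟨b, x'⟩ =
      A' ⟨b, x⟩ ⟨b, x'⟩ + t * (if x = x' then 1 else 0) := by
    rw [Matrix.add_apply, Matrix.smul_apply, Matrix.one_apply, smul_eq_mul]
    congr 2
    by_cases h : x = x'
    · rw [h, if_pos rfl, if_pos rfl]
    · rw [if_neg h, if_neg]
      intro h2
      exact h (eq_of_heq (Sigma.mk.inj_iff.1 h2).2)
  rw [h1]
  change _ = if x = x' then t + (if x = x0 b then N₀ (e.symm b) (e.symm b) else 0) else 0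
  have h2 : A' ⟨b, x⟩ ⟨b, x'⟩ = Matrix.fromBlocks N₀ 0 0 (0 : Matrix (Fin n₁) (Fin n₁) K)
      (g ⟨b, x⟩) (g ⟨b, x'⟩) := rfl
  rw [h2]
  by_cases hx : x = x0 b
  · by_cases hx' : x' = x0 b
    · subst hx
      subst hx'
      rw [hg, Matrix.fromBlocks_apply₁₁, if_pos rfl, if_pos rfl, if_pos rfl]
      ring
    · obtain ⟨k, hk⟩ := hg' b x' hx'
      have h3 : x ≠ x' := fun h => hx' (h ▸ hx)
      rw [hk, hx, hg, Matrix.fromBlocks_apply₁₂, ← hx, if_neg h3, if_neg h3]
      simp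
  · obtain ⟨k, hk⟩ := hg' b x hx
    have h3 : ∀ z, Matrix.fromBlocks N₀ 0 0 (0 : Matrix (Fin n₁) (Fin n₁) K)
        (Sum.inr k) z = 0 := by
      rintro (z | z)
      · rfl
      · rfl
    rw [hk, h3]
    by_cases h : x = x'
    · rw [if_pos h, if_pos h, if_neg hx]
      ring
    · rw [if_neg h, if_neg h]
      ring

theorem low_db (hcop : Nat.Coprime (Fintype.card d₁.G) (Fintype.card d₂.G)) (B : Matrix ι ι K) (t : K)
    (σ : ℕ) (hrank : (B - t • (1 : Matrix ι ι K)).rank ≤ σ)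
    (htz : tz → B.trace = 0 ∧ B ≠ t • (1 : Matrix ι ι K))
    (hn : Fintype.card d₁.G * Fintype.card d₂.G ≤ Fintype.card ι)
    (hn' : (2 * σ + 1) * (Fintype.card d₁.G + Fintype.card d₂.G) ≤ Fintype.card ι) :
    DB tz d₁ d₂ B := by
  obtain ⟨x, y, hxy⟩ := exists_rep (a := Fintype.card d₁.G) (b := Fintype.card d₂.G)
    Fintype.card_pos Fintype.card_pos hcop hn
  let d : Fin x ⊕ Fin y → Dag m i := Sum.elim (fun _ => d₁) (fun _ => d₂)
  have hcard : Fintype.card ι = ∑ b, Fintype.card (d b).G := by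
    have e1 : ∑ b : Fin x, Fintype.card (d (Sum.inl b)).G = x * Fintype.card d₁.G := by
      rw [show (fun b : Fin x => Fintype.card (d (Sum.inl b)).G) = fun _ => Fintype.card d₁.G
        from rfl, Finset.sum_const, Finset.card_univ, Fintype.card_fin, smul_eq_mul]
    have e2 : ∑ b : Fin y, Fintype.card (d (Sum.inr b)).G = y * Fintype.card d₂.G := by
      rw [show (fun b : Fin y => Fintype.card (d (Sum.inr b)).G) = fun _ => Fintype.card d₂.G
        from rfl, Finset.sum_const, Finset.card_univ, Fintype.card_fin, smul_eq_mul]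
    rw [Fintype.sum_sum_type, e1, e2]
    exact hxy
  have hβ : 2 * σ + 1 ≤ Fintype.card (Fin x ⊕ Fin y) := by
    rw [Fintype.card_sum, Fintype.card_fin, Fintype.card_fin]
    by_contra hlt
    push Not at hlt
    have h1 : Fintype.card ι < (2 * σ + 1) * (Fintype.card d₁.G + Fintype.card d₂.G) := by
      have hp1 : 0 < Fintype.card d₁.G := Fintype.card_pos
      calc Fintype.card ι = x * Fintype.card d₁.G + y * Fintype.card d₂.G := hxy
        _ ≤ (x + y) * (Fintype.card d₁.G + Fintype.card d₂.G) := by nlinarith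
        _ < (2 * σ + 1) * (Fintype.card d₁.G + Fintype.card d₂.G) := by
            apply Nat.mul_lt_mul_of_pos_right hlt
            omega
    omega
  by_cases ht : tz
  · obtain ⟨A, hBA, hA⟩ := scalar_low (fun b => (d b).G) B t σ hrank (htz ht).2 (htz ht).1 hcard hβ
    refine ⟨Fin x ⊕ Fin y, inferInstance, inferInstance, d, A, ?_, hBA, fun b => ?_⟩
    · rintro (b | b)
      · exact Or.inl rfl
      · exact Or.inr rfl
    · obtain ⟨z, hz, h⟩ := hA b
      exact ⟨z, fun _ => hz, h⟩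
  · obtain ⟨A, hBA, hA⟩ := scalar_any (fun b => (d b).G) B t σ hrank hcard hβ
    refine ⟨Fin x ⊕ Fin y, inferInstance, inferInstance, d, A, ?_, hBA, fun b => ?_⟩
    · rintro (b | b)
      · exact Or.inl rfl
      · exact Or.inr rfl
    · obtain ⟨z, h⟩ := hA b
      exact ⟨z, fun h => absurd h ht, h⟩


end ALK
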