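import Pool.Agent.Work.MP_05d08f_al.AX.Defs

set_option autoImplicit false

/-!
# X3: from zero diagonal blocks of large size to blocks of given sizes (size M)

Let `g₁ = card d₁.G`, `g₂ = card d₂.G` be coprime and `A ~ A₁` with classes `f : ι → ℕ` of sizes at least
`g₁ * g₂` on which `A₁` vanishes (`ZB`). By `exists_rep` (AS/F01) the size of the class of value `v`
(`v` in the finite set `V = Finset.univ.image f`) is `x_v * g₁ + y_v * g₂`. Let
`β = Σ v : V, (Fin (x_v) ⊕ Fin (y_v))`, `d ⟨v, inl _⟩ = d₁`, `d ⟨v, inr _⟩ = d₂`. For each `v ∈ V`: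
`card {y // f y = v} = card (Σ b : Fin x_v ⊕ Fin y_v, (d ⟨v, b⟩).G)`, so there is an equivalence, and all together
(`Equiv.sigmaFiberEquiv`, `Equiv.sigmaCongrRight`, `Equiv.sigmaAssoc`) an equivalence
`e : (Σ b : β, (d b).G) ≃ ι` such that `f (e ⟨⟨v, _⟩, x⟩) = v`. Then `A₁.submatrix e e` is similar to `A`
(`Sim.submatrix`, `Sim.trans`), and its diagonal blocks are zero because all indices of a block are in
the same class. Take `y = 0`.
-/

namespace ALK

open Matrix Equiv MLI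

variable {K : Type*} [Field K] {m : ℕ} {i : Fin m} {tz : Prop} {d₁ d₂ : Dag m i}
  {ι : Type*} [Fintype ι] [DecidableEq ι]

theorem DB.of_zb (hcop : Nat.Coprime (Fintype.card d₁.G) (Fintype.card d₂.G)) {A : Matrix ι ι K}
    (h : ZB (Fintype.card d₁.G * Fintype.card d₂.G) A) : DB tz d₁ d₂ A := by
  classical
  obtain ⟨A', κ', hS, h1, h2⟩ := h
  let V : Finset ℕ := Finset.univ.image κ'
  let f : ι → V := fun z => ⟨κ' z, Finset.mem_image_of_mem _ (Finset.mem_univ z)⟩
  have hf : ∀ z w, f z = f w ↔ κ' z = κ' w := fun z w => Subtype.mk_eq_mk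
  have hrep : ∀ v : V, ∃ x y : ℕ, Fintype.card {z // f z = v} =
      x * Fintype.card d₁.G + y * Fintype.card d₂.G := by
    rintro ⟨v, hv⟩
    obtain ⟨z, -, hz⟩ := Finset.mem_image.1 hv
    have hz' : f z = ⟨v, hv⟩ := Subtype.ext hz
    refine exists_rep Fintype.card_pos Fintype.card_pos hcop ?_
    refine le_of_le_of_eq (h1 z) (Fintype.card_congr (Equiv.subtypeEquivRight fun y => ?_))
    rw [← hz', hf]
  choose X Y hXY using hrep
  let β : Type := Σ v : V, (Fin (X v) ⊕ Fin (Y v))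
  let d : β → Dag m i := fun b => Sum.elim (fun _ => d₁) (fun _ => d₂) b.2
  have hcard : ∀ v : V, Fintype.card (Σ s : Fin (X v) ⊕ Fin (Y v), (d ⟨v, s⟩).G) =
      Fintype.card {z // f z = v} := by
    intro v
    rw [hXY, Fintype.card_sigma, Fintype.sum_sum_type]
    have e1 : ∀ s : Fin (X v), Fintype.card (d ⟨v, Sum.inl s⟩).G = Fintype.card d₁.G := fun s => rfl
    have e2 : ∀ s : Fin (Y v), Fintype.card (d ⟨v, Sum.inr s⟩).G = Fintype.card d₂.G := fun s => rfl
    rw [Finset.sum_congr rfl fun s _ => e1 s, Finset.sum_congr rfl fun s _ => e2 s,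
      Finset.sum_const, Finset.sum_const, Finset.card_univ, Finset.card_univ, Fintype.card_fin,
      Fintype.card_fin, smul_eq_mul, smul_eq_mul]
  let ev : ∀ v : V, (Σ s : Fin (X v) ⊕ Fin (Y v), (d ⟨v, s⟩).G) ≃ {z // f z = v} :=
    fun v => Fintype.equivOfCardEq (hcard v)
  let e : (Σ b : β, (d b).G) ≃ ι :=
    (Equiv.sigmaAssoc (fun (v : V) (s : Fin (X v) ⊕ Fin (Y v)) => (d ⟨v, s⟩).G)).trans
      ((Equiv.sigmaCongrRight ev).trans (Equiv.sigmaFiberEquiv f))
  have he : ∀ (b : β) (x : (d b).G), f (e ⟨b, x⟩) = b.1 := by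
    rintro ⟨v, s⟩ x
    exact (ev v ⟨s, x⟩).2
  refine ⟨β, inferInstance, inferInstance, d, A'.submatrix e e, ?_, ?_, ?_⟩
  · rintro ⟨v, s⟩
    rcases s with s | s
    · exact Or.inl rfl
    · exact Or.inr rfl
  · exact hS.trans (Sim.submatrix A' e)
  · intro b
    refine ⟨fun _ => 0, fun _ => by simp, fun x x' => ?_⟩
    rw [Matrix.submatrix_apply, h2 _ _ ((hf _ _).1 ((he b x).trans (he b x').symm)), ite_self]

end ALK
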