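import Pool.Agent.Work.MP_05d08f_al.AX.X2
import Pool.Agent.Work.MP_05d08f_al.AX.X3
import Pool.Agent.Work.MP_05d08f_al.AX.X5

set_option autoImplicit false

/-!
# X6: matrices far from scalars, arbitrary trace (size S-M, assembly)

Let `r = card d₁.G ≥ 1`, `R = card d₁.G * card d₂.G ≥ r`, `n' = card ι - r`, `S = sig R` (`2 r ≤ S`). Let
`A₀ = diagonal y₀`, `y₀ = Pi.single 0 B.trace : Fin r → K`. `removal_gen` with `s = S` gives
`Sim B (fromBlocks A₀ b c D)` with `rank (D - μ) ≥ S` for all `μ`, and `tr D = tr B - tr A₀ = 0`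
(`Sim.trace_eq`, `Matrix.trace_fromBlocks`, or as in AS/A14). `la_main` (AS/A14) gives `ZB R D`, `DB.of_zb` gives
`DB tz d₁ d₂ D`; `DB.diag` gives `DB tz d₁ d₂ A₀` (if `tz`, then `∑ y₀ = tr B = 0`); conclude with `DB.join`
and `DB.of_sim`.
-/

namespace ALK

open Matrix Equiv MLI

variable {K : Type*} [Field K] {m : ℕ} {i : Fin m} {tz : Prop} {d₁ d₂ : Dag m i}
  {ι : Type*} [Fintype ι] [DecidableEq ι]

private theorem tr_blocks {α α' : Type*} [Fintype α] [Fintype α'] (A : Matrix α α K)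
    (b : Matrix α α' K) (c : Matrix α' α K) (D : Matrix α' α' K) :
    (Matrix.fromBlocks A b c D).trace = A.trace + D.trace := by
  simp only [Matrix.trace, Fintype.sum_sum_type, Matrix.diag_apply, Matrix.fromBlocks_apply₁₁,
    Matrix.fromBlocks_apply₂₂]

theorem far_db [Infinite K] (hcop : Nat.Coprime (Fintype.card d₁.G) (Fintype.card d₂.G))
    (B : Matrix ι ι K) (htz : tz → B.trace = 0)
    (hn : 2 * sig (Fintype.card d₁.G * Fintype.card d₂.G) + 12 * Fintype.card d₁.G + 4 ≤ Fintype.card ι)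
    (hB : ∀ μ : K, sig (Fintype.card d₁.G * Fintype.card d₂.G) ≤
      (B - μ • (1 : Matrix ι ι K)).rank) : DB tz d₁ d₂ B := by
  have hr : 0 < Fintype.card d₁.G := Fintype.card_pos
  have hr2 : 0 < Fintype.card d₂.G := Fintype.card_pos
  obtain ⟨r, hrr⟩ : ∃ r, r = Fintype.card d₁.G := ⟨_, rfl⟩
  obtain ⟨R, hRR⟩ : ∃ R, R = Fintype.card d₁.G * Fintype.card d₂.G := ⟨_, rfl⟩
  have hrR : r ≤ R := by
    rw [hrr, hRR]
    exact Nat.le_mul_of_pos_right _ hr2
  rw [← hRR] at hn hB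
  rw [← hrr] at hr hn
  obtain ⟨q, hq⟩ : ∃ q, q = (R + 2) * (R + 3) := ⟨_, rfl⟩
  have hsig : sig R = 2 * (q + 1) + (R + 1) + 12 * (R + 1) + 4 := by
    unfold sig
    rw [hq]
  obtain ⟨y, hy⟩ : ∃ y : Fin r → K, y = Pi.single ⟨0, hr⟩ B.trace := ⟨_, rfl⟩
  have hysum : ∑ x, y x = B.trace := by
    rw [hy]
    exact Fintype.sum_pi_single' _ _
  obtain ⟨b, c, D, h1, h2⟩ := removal_gen B r (Fintype.card ι - r) (sig R) (Matrix.diagonal y)
    (by omega) (by omega) (by omega) (by omega) hB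
  have hD : D.trace = 0 := by
    have h3 := h1.trace_eq
    rw [tr_blocks, Matrix.trace_diagonal, hysum] at h3
    have h4 : B.trace + 0 = B.trace + D.trace := by rw [add_zero]; exact h3
    exact (add_left_cancel h4).symm
  have hz : ZB R D := la_main (by omega) D hD h2
  rw [hRR] at hz
  exact DB.of_sim h1 (DB.join b c (DB.diag hrr.symm y (fun h => by rw [hysum]; exact htz h))
    (DB.of_zb hcop hz))

end ALK
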