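import Pool.Agent.Work.MP_05d08f_al.AX.Defs

set_option autoImplicit false

/-!
# X7: values of traceless polynomials have trace zero (size S-M)

`ev c a = ∑_σ c σ • (List.ofFn fun k => a (σ k)).prod` and `List.ofFn σ = wl σ i ++ i :: wr σ i` (`ofFn_split`,
see `Basic.lean`, `E03.lean`), so with `W l = (l.map a).prod`:
`tr (W (wl ++ i :: wr)) = tr (W wl * (a i * W wr)) = tr (a i * W wr * W wl) = tr (a i * W (wr ++ wl))`
(`Matrix.trace_mul_comm`, `List.prod_append`). So `tr (ev c a) = ∑_σ c σ * F (wr σ i ++ wl σ i)` with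
`F l = tr (a i * W l)`. Group the `σ` by the list `wr σ i ++ wl σ i`: each group has coefficient sum `0` by
`TL c i` (the same grouping is done in the proof of `diag_hit`, AS/E08, COLUMN SUMS, and in AS/E03 (2)).
-/

namespace ALK

open Matrix Equiv MLI

private theorem tl_sum {m : ℕ} {K : Type*} [Field K] (c : Perm (Fin m) → K) (i : Fin m) (hT : TL c i) (W : List (Fin m) → K) :
    ∑ σ : Perm (Fin m), c σ * W (wr σ i ++ wl σ i) = 0 := by
  classical
  rw [← Finset.sum_fiberwise_of_maps_to (s := Finset.univ) (t := Finset.univ.image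
    fun σ : Perm (Fin m) => wr σ i ++ wl σ i) (g := fun σ => wr σ i ++ wl σ i)
    (fun σ _ => Finset.mem_image_of_mem _ (Finset.mem_univ σ))]
  refine Finset.sum_eq_zero fun l hl => ?_
  obtain ⟨σ₀, -, rfl⟩ := Finset.mem_image.1 hl
  have h1 := hT σ₀
  have h2 : ∑ σ : Perm (Fin m) with wr σ i ++ wl σ i = wr σ₀ i ++ wl σ₀ i,
      c σ * W (wr σ i ++ wl σ i) =
      (∑ σ : Perm (Fin m) with wr σ i ++ wl σ i = wr σ₀ i ++ wl σ₀ i, c σ) *
        W (wr σ₀ i ++ wl σ₀ i) := by
    rw [Finset.sum_mul]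
    refine Finset.sum_congr rfl fun σ hσ => ?_
    rw [(Finset.mem_filter.1 hσ).2]
  rw [h2, Finset.sum_filter]
  have h3 : (∑ σ : Perm (Fin m), if wr σ i ++ wl σ i = wr σ₀ i ++ wl σ₀ i then c σ else 0) = 0 := by
    convert h1
  rw [h3, zero_mul]

theorem tl_trace {K : Type*} [Field K] {m : ℕ} (c : Perm (Fin m) → K) (i : Fin m) (h : TL c i)
    {ι : Type*} [Fintype ι] [DecidableEq ι] (a : Fin m → Matrix ι ι K) : (ev c a).trace = 0 := by
  refine Eq.trans ?_ (tl_sum c i h (fun l => (a i * (l.map a).prod).trace))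
  unfold ev
  rw [Matrix.trace_sum]
  refine Finset.sum_congr rfl fun σ _ => ?_
  rw [Matrix.trace_smul, smul_eq_mul, prod_word σ i a, List.map_append, List.prod_append]
  congr 1
  rw [mul_assoc, Matrix.trace_mul_comm, mul_assoc]

end ALK
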