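import Pool.Agent.Work.MP_05d08f_al.AX.P11
import Pool.Agent.Work.MP_05d08f_al.AX.X1
import Pool.Agent.Work.MP_05d08f_al.AX.X4
import Pool.Agent.Work.MP_05d08f_al.AX.X6
import Pool.Agent.Work.MP_05d08f_al.AX.X7

set_option autoImplicit false

/-!
# Main: the Lvov-Kaplansky conjecture for large matrices
-/

namespace ALK

open Matrix Equiv MLI

theorem DB.value {K : Type} [Field K] [Infinite K] {m : ℕ} {i : Fin m}
    (c : Perm (Fin m) → K) (hc : c ≠ 0) {d₁ d₂ : Dag m i} (h₁ : Good c d₁) (h₂ : Good c d₂)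
    {ι : Type} [Fintype ι] [DecidableEq ι] {B : Matrix ι ι K} (hB : DB (TL c i) d₁ d₂ B) :
    ∃ a : Fin m → Matrix ι ι K, ev c a = B := by
  obtain ⟨β, _, _, d, A', hd, hs, hA⟩ := hB
  refine Sim.value c hs (hit_all c hc i d (fun b => ?_) A' hA)
  rcases hd b with h | h
  · rw [h]; exact h₁
  · rw [h]; exact h₂

theorem cop_dag {m : ℕ} {i : Fin m} (d₁ d₂ : Dag m i)
    (h : ∀ s : ℕ, s.Prime → s ∣ Fintype.card d₂.G → Fintype.card d₁.G < s) :
    Nat.Coprime (Fintype.card d₁.G) (Fintype.card d₂.G) := by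
  refine Nat.Coprime.symm (Nat.coprime_of_dvd fun s hs hs2 hs1 => ?_)
  exact absurd (Nat.le_of_dvd Fintype.card_pos hs1) (not_le.2 (h s hs hs2))

theorem main_all (m : ℕ) (i : Fin m) : ∃ N : ℕ, ∀ (K : Type) [Field K] [Infinite K]
    (c : Perm (Fin m) → K), c ≠ 0 → ∀ n : ℕ, N ≤ n → ∀ B : Matrix (Fin n) (Fin n) K,
      (TL c i → B.trace = 0 ∧ (B = 0 ∨ ∀ t : K, B ≠ t • (1 : Matrix (Fin n) (Fin n) K))) →
      ∃ a : Fin m → Matrix (Fin n) (Fin n) K, ev c a = B := by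
  classical
  obtain ⟨L₁, hL₁, hU₁⟩ := uniform_all m i 0
  let M₁ : ℕ := (L₁.map fun d => Fintype.card d.G).sum
  have hM₁ : ∀ d ∈ L₁, Fintype.card d.G ≤ M₁ := fun d hd =>
    List.single_le_sum (by simp) _ (List.mem_map_of_mem hd)
  obtain ⟨L₂, hL₂, hU₂⟩ := uniform_all m i M₁
  let M₂ : ℕ := (L₂.map fun d => Fintype.card d.G).sum
  have hM₂ : ∀ d ∈ L₂, Fintype.card d.G ≤ M₂ := fun d hd =>
    List.single_le_sum (by simp) _ (List.mem_map_of_mem hd)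
  have hsig : Monotone sig := fun r r' h => by
    unfold sig
    have : (r + 2) * (r + 3) ≤ (r' + 2) * (r' + 3) := Nat.mul_le_mul (by omega) (by omega)
    omega
  refine ⟨2 * sig (M₁ * M₂) + 12 * M₁ + 4 + M₁ * M₂ + (2 * sig (M₁ * M₂) + 1) * (M₁ + M₂) + m, ?_⟩
  intro K _ _ c hc n hn B hB
  have hm : 0 < m := lt_of_le_of_lt (Nat.zero_le _) i.2
  obtain ⟨d₁, hd₁, h₁⟩ := hU₁ K c hc
  obtain ⟨d₂, hd₂, h₂⟩ := hU₂ K c hc
  have hc1 := hM₁ d₁ hd₁
  have hc2 := hM₂ d₂ hd₂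
  have hcop : Nat.Coprime (Fintype.card d₁.G) (Fintype.card d₂.G) :=
    cop_dag d₁ d₂ fun s hs hs2 => lt_of_le_of_lt hc1 (hL₂ d₂ hd₂ s hs hs2)
  have hmul : Fintype.card d₁.G * Fintype.card d₂.G ≤ M₁ * M₂ := Nat.mul_le_mul hc1 hc2
  have hs : sig (Fintype.card d₁.G * Fintype.card d₂.G) ≤ sig (M₁ * M₂) := hsig hmul
  by_cases h0 : TL c i ∧ B = 0
  · refine zb_value hm (show m < 4 * m by omega) c hc ?_
    rw [h0.2]
    refine ZB.zero ?_
    rw [Fintype.card_fin]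
    omega
  by_cases hfar : ∀ μ : K, sig (Fintype.card d₁.G * Fintype.card d₂.G) ≤
      (B - μ • (1 : Matrix (Fin n) (Fin n) K)).rank
  · refine DB.value c hc h₁ h₂ (far_db hcop B (fun h => (hB h).1) ?_ hfar)
    rw [Fintype.card_fin]
    omega
  · push Not at hfar
    obtain ⟨t, ht⟩ := hfar
    refine DB.value c hc h₁ h₂ (low_db hcop B t (sig (Fintype.card d₁.G * Fintype.card d₂.G)) ht.le
      (fun h => ⟨(hB h).1, ?_⟩) ?_ ?_)
    · rcases (hB h).2 with h2 | h2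
      · exact absurd ⟨h, h2⟩ h0
      · exact h2 t
    · rw [Fintype.card_fin]; omega
    · rw [Fintype.card_fin]
      refine le_trans (Nat.mul_le_mul (show 2 * sig (Fintype.card d₁.G * Fintype.card d₂.G) + 1 ≤
        2 * sig (M₁ * M₂) + 1 by omega) (show Fintype.card d₁.G + Fintype.card d₂.G ≤ M₁ + M₂ by omega)) ?_
      omega

end ALK
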