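import Mathlib

set_option autoImplicit false

/-!
# P1: choice of primes (Mathlib only, size S-M)

For `Q ≥ 2`, `X`, `k` there are primes `r_0 < ℓ_0 < r_1 < ℓ_1 < …` (`u < k`), `r_u > X`, with
`ℓ_u ∣ Q ^ r_u - 1` and `ℓ_u ∤ Q - 1`.

PROOF. Induction on `k`; it suffices to find, for every bound `Y`, primes `r > Y`, `ℓ > r` with `ℓ ∣ Q ^ r - 1` and
`ℓ ∤ Q - 1`, and to append them with `Y = ` maximum of `X` and all the earlier primes. Let `r` be a prime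
`> max (Y, Q)` and `ℓ` a prime factor of `s = 1 + Q + … + Q ^ (r - 1) > 1`. `ℓ ∣ (Q - 1) s = Q ^ r - 1`
(`Nat.geomSum_eq` or `geom_sum_mul`). If `ℓ ∣ Q - 1` then `Q ≡ 1`, `s ≡ r` modulo `ℓ`, so `ℓ ∣ r`, `ℓ = r`, and
`r ∣ Q - 1`, impossible as `r > Q ≥ 2`. So the order of `Q` modulo `ℓ` is not `1` and divides the prime `r`; it is `r`, and it
divides `ℓ - 1` (`ZMod.orderOf_dvd_card_sub_one` or Fermat), so `r < ℓ`.
-/

namespace ALK

private theorem step (Q Y : ℕ) (hQ : 2 ≤ Q) :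
    ∃ r ℓ : ℕ, r.Prime ∧ ℓ.Prime ∧ Y < r ∧ r < ℓ ∧ ℓ ∣ Q ^ r - 1 ∧ ¬ ℓ ∣ Q - 1 := by
  obtain ⟨r, hr1, hr⟩ := Nat.exists_infinite_primes (max Y Q + 1)
  have hrY : Y < r := lt_of_le_of_lt (le_max_left Y Q) hr1
  have hrQ : Q < r := lt_of_le_of_lt (le_max_right Y Q) hr1
  set s : ℕ := ∑ i ∈ Finset.range r, Q ^ i with hs
  have hs1 : s ≠ 1 := by
    have : 1 + Q ≤ s := by
      have h2 : ∑ i ∈ Finset.range 2, Q ^ i ≤ s :=
        Finset.sum_le_sum_of_subset (Finset.range_mono hr.two_le)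
      simpa [Finset.sum_range_succ] using h2
    omega
  have hmul : (Q - 1) * s = Q ^ r - 1 := by
    have h := Nat.geomSum_eq hQ r
    have hdvd : (Q - 1) ∣ Q ^ r - 1 := by
      simpa using Nat.sub_dvd_pow_sub_pow Q 1 r
    rw [hs, h]
    exact Nat.mul_div_cancel' hdvd
  obtain ⟨ℓ, hℓ, hℓs⟩ := Nat.exists_prime_and_dvd hs1
  have hℓQ : ℓ ∣ Q ^ r - 1 := hmul ▸ Dvd.dvd.mul_left hℓs _
  have hnd : ¬ ℓ ∣ Q - 1 := by
    intro hd
    have hmod : 1 ≡ Q [MOD ℓ] := (Nat.modEq_iff_dvd' (by omega)).2 hd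
    have hsr : s ≡ r [MOD ℓ] := by
      have : s ≡ ∑ _i ∈ Finset.range r, 1 [MOD ℓ] := by
        rw [hs, Nat.ModEq, Finset.sum_nat_mod, Finset.sum_nat_mod (f := fun _ => 1)]
        congr 1
        refine Finset.sum_congr rfl fun i _ => ?_
        have := (hmod.symm).pow i
        rw [one_pow] at this
        exact this
      simpa using this
    have hr0 : ℓ ∣ r := (Nat.modEq_zero_iff_dvd).1 (hsr.symm.trans ((Nat.modEq_zero_iff_dvd).2 hℓs))
    have hlr : ℓ = r := (Nat.prime_dvd_prime_iff_eq hℓ hr).1 hr0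
    have := Nat.le_of_dvd (by omega) hd
    omega
  refine ⟨r, ℓ, hr, hℓ, hrY, ?_, hℓQ, hnd⟩
  have : Fact ℓ.Prime := ⟨hℓ⟩
  have hpow : (Q : ZMod ℓ) ^ r = 1 := by
    have h1 : ((Q ^ r - 1 : ℕ) : ZMod ℓ) = 0 := (ZMod.natCast_eq_zero_iff _ _).2 hℓQ
    rw [Nat.cast_sub (Nat.one_le_pow _ _ (by omega))] at h1
    push_cast at h1
    exact sub_eq_zero.1 h1
  have hne : (Q : ZMod ℓ) ≠ 1 := by
    intro h
    apply hnd
    rw [← ZMod.natCast_eq_zero_iff, Nat.cast_sub (by omega)]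
    push_cast
    rw [h, sub_self]
  have hord : orderOf (Q : ZMod ℓ) = r := by
    rcases (Nat.dvd_prime hr).1 (orderOf_dvd_of_pow_eq_one hpow) with h | h
    · exact absurd (orderOf_eq_one_iff.1 h) hne
    · exact h
  have hQ0 : (Q : ZMod ℓ) ≠ 0 := by
    intro h
    rw [h, zero_pow hr.ne_zero] at hpow
    exact zero_ne_one hpow
  have hd := ZMod.orderOf_dvd_card_sub_one hQ0
  rw [hord] at hd
  have := Nat.le_of_dvd (by have := hℓ.two_le; omega) hd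
  have := hℓ.two_le
  omega

theorem primes_seq (Q X k : ℕ) (hQ : 2 ≤ Q) :
    ∃ r ℓ : Fin k → ℕ, (∀ u, (r u).Prime ∧ (ℓ u).Prime ∧ X < r u ∧ r u < ℓ u ∧
        ℓ u ∣ Q ^ r u - 1 ∧ ¬ ℓ u ∣ Q - 1) ∧
      (∀ u v, r u ≠ ℓ v) ∧ Function.Injective r ∧ Function.Injective ℓ := by
  choose g h hg using fun Y => step Q Y hQ
  let q : ℕ → ℕ × ℕ := fun n => Nat.rec (g X, h X) (fun _ z => (g z.2, h z.2)) n
  have q0 : q 0 = (g X, h X) := rfl
  have qs : ∀ n, q (n + 1) = (g (q n).2, h (q n).2) := fun n => rfl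
  have hq : ∀ n, (q n).1.Prime ∧ (q n).2.Prime ∧ (q n).1 < (q n).2 ∧
      (q n).2 ∣ Q ^ (q n).1 - 1 ∧ ¬ (q n).2 ∣ Q - 1 := by
    intro n
    cases n with
    | zero => rw [q0]; exact ⟨(hg X).1, (hg X).2.1, (hg X).2.2.2.1, (hg X).2.2.2.2⟩
    | succ n =>
      rw [qs]
      have := hg (q n).2
      exact ⟨this.1, this.2.1, this.2.2.2.1, this.2.2.2.2⟩
  have hlt : ∀ n, (q n).2 < (q (n + 1)).1 := fun n => by
    rw [qs]; exact (hg (q n).2).2.2.1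
  have m1 : StrictMono (fun n => (q n).1) :=
    strictMono_nat_of_lt_succ fun n => lt_trans (hq n).2.2.1 (hlt n)
  have m2 : StrictMono (fun n => (q n).2) :=
    strictMono_nat_of_lt_succ fun n => lt_trans (hlt n) (hq (n + 1)).2.2.1
  have hX : ∀ n, X < (q n).1 := fun n =>
    lt_of_lt_of_le (by rw [q0]; exact (hg X).2.2.1) (m1.monotone (Nat.zero_le n))
  refine ⟨fun u => (q u).1, fun u => (q u).2, fun u => ⟨(hq u).1, (hq u).2.1, hX u, (hq u).2.2⟩,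
    ?_, ?_, ?_⟩
  · intro u v
    rcases Nat.lt_or_ge (v : ℕ) (u : ℕ) with hvu | hvu
    · have h1 : (q (v + 1)).1 ≤ (q u).1 := m1.monotone hvu
      have h2 := hlt v
      exact (lt_of_lt_of_le h2 h1).ne'
    · have h1 : (q u).1 ≤ (q v).1 := m1.monotone hvu
      exact (lt_of_le_of_lt h1 (hq v).2.2.1).ne
  · intro u v huv
    exact Fin.ext (m1.injective huv)
  · intro u v huv
    exact Fin.ext (m2.injective huv)

end ALK
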