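import Pool.Agent.Work.MP_05d08f_al.AX.Defs

set_option autoImplicit false

/-!
# P8: the determinant as a polynomial in all variables (size M, compare `det_poly` in `AS/E05.lean`)

For `d : Dag m i` let `R = ℤ[X_σ : σ ∈ Perm (Fin m)]` and let `P ∈ R[D_{j,a}, φ_a]` be the determinant of the `G × G` matrix
with entries `∑_σ (if a' = a + sh h (wl σ i) then C (X σ) * (W (wl σ i) a * W (wr σ i) (a' + c0)) else 0) + φ_{a'}`,
`c0 = -∑ j, h j`, where `W l a ∈ R[D, φ]` is the weight, defined by the recursion of `MLI.wt` (copy the definition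
`wtZ62` of AS/E05 with the polynomial ring in place of `ℤ`; it is mapped to `MLI.wt h D l a` by every
evaluation, induction on the list). Let `C μ` be the coefficient of `P` at the monomial `μ`. For a field `K` and
`c : Perm (Fin m) → K` let `P_c = map (aeval c) P ∈ K[D, φ]`; its coefficients are `aeval c (C μ)`
(`MvPolynomial.coeff_map`), and its value at `(D, φ)` is `det (LamD c i d.h D φ)` (`RingHom.map_det`). If `K` is
infinite then `P_c = 0` iff all its values are zero (`MvPolynomial.funext`). `C₀` is constructed in the same way from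
the determinant with `φ = 0`, a polynomial `P₀ ∈ R[D_{j,a}]`.
-/

namespace ALK

open Equiv MLI Matrix

variable {m : ℕ} {i : Fin m}

/-- The weight of a word over a commutative ring. -/
private def wtR8 {G : Type*} [AddCommGroup G] {A : Type*} [CommRing A] (h : Fin m → G)
    (D : Fin m → G → A) : List (Fin m) → G → A
  | [], _ => 1
  | j :: l, a => D j a * wtR8 h D l (a + h j)

private theorem wtR8_map {G : Type*} [AddCommGroup G] {A K : Type*} [CommRing A] [Field K]
    (f : A →+* K) (h : Fin m → G) (D : Fin m → G → A) (l : List (Fin m)) (a : G) :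
    f (wtR8 h D l a) = wt h (fun j a => f (D j a)) l a := by
  induction l generalizing a with
  | nil => exact map_one f
  | cons j l ih =>
    show f (D j a * wtR8 h D l (a + h j)) = f (D j a) * wt h _ l (a + h j)
    rw [map_mul, ih]

/-- The matrix `LamD` over a commutative ring. -/
private def MR8 {G : Type*} [AddCommGroup G] [DecidableEq G] {A : Type*} [CommRing A]
    (i : Fin m) (h : Fin m → G) (c : Perm (Fin m) → A) (D : Fin m → G → A) (φ : G → A) :
    Matrix G G A :=
  Matrix.of fun a a' => (∑ σ : Perm (Fin m), if a' = a + sh h (wl σ i) then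
    c σ * (wtR8 h D (wl σ i) a * wtR8 h D (wr σ i) (a' + (-∑ j, h j))) else 0) + φ a'

private theorem MR8_map {G : Type*} [AddCommGroup G] [Fintype G] [DecidableEq G] {A K : Type*}
    [CommRing A] [Field K] (f : A →+* K) (i : Fin m) (h : Fin m → G) (c : Perm (Fin m) → A)
    (D : Fin m → G → A) (φ : G → A) :
    f (MR8 i h c D φ).det = (LamD (fun σ => f (c σ)) i h (fun j a => f (D j a))
      (fun a => f (φ a))).det := by
  rw [RingHom.map_det]
  congr 1
  ext a a'
  rw [RingHom.mapMatrix_apply, Matrix.map_apply]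
  show f ((∑ σ : Perm (Fin m), if a' = a + sh h (wl σ i) then
    c σ * (wtR8 h D (wl σ i) a * wtR8 h D (wr σ i) (a' + (-∑ j, h j))) else 0) + φ a') =
    (∑ σ : Perm (Fin m), if a' = a + sh h (wl σ i) then
    f (c σ) * (wt h (fun j a => f (D j a)) (wl σ i) a *
      wt h (fun j a => f (D j a)) (wr σ i) (a' + (-∑ j, h j))) else 0) + f (φ a')
  rw [map_add, map_sum]
  congr 1
  refine Finset.sum_congr rfl fun σ _ => ?_
  split_ifs
  · rw [map_mul, map_mul, wtR8_map, wtR8_map]
  · exact map_zero _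

private theorem fam8 {V : Type*} (P : MvPolynomial V (MvPolynomial (Perm (Fin m)) ℤ)) (K : Type)
    [Field K] [Infinite K] (c : Perm (Fin m) → K) :
    (∃ μ, MvPolynomial.aeval c (P.coeff μ) ≠ 0) ↔
      ∃ x : V → K, MvPolynomial.eval₂Hom
        ((MvPolynomial.aeval c : MvPolynomial (Perm (Fin m)) ℤ →ₐ[ℤ] K).toRingHom) x P ≠ 0 := by
  obtain ⟨f, hf⟩ : ∃ f : MvPolynomial (Perm (Fin m)) ℤ →+* K,
    f = (MvPolynomial.aeval c : MvPolynomial (Perm (Fin m)) ℤ →ₐ[ℤ] K).toRingHom := ⟨_, rfl⟩
  rw [← hf]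
  have hf' : ∀ r, MvPolynomial.aeval c r = f r := fun r => by rw [hf]; rfl
  simp only [hf']
  have h1 : MvPolynomial.map f P = 0 ↔ ∀ μ, f (P.coeff μ) = 0 := by
    rw [MvPolynomial.ext_iff]
    exact forall_congr' fun μ => by rw [MvPolynomial.coeff_map, MvPolynomial.coeff_zero]
  have h2 : MvPolynomial.map f P = 0 ↔ ∀ x : V → K, MvPolynomial.eval₂Hom f x P = 0 := by
    constructor
    · intro h x
      rw [MvPolynomial.coe_eval₂Hom, MvPolynomial.eval₂_eq_eval_map, h, map_zero]
    · intro h
      refine MvPolynomial.funext fun x => ?_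
      rw [map_zero, ← MvPolynomial.eval₂_eq_eval_map]
      exact h x
  rw [← not_forall, ← h1, h2, not_forall]

/-- There is a family `C` of polynomials in `c` with integer coefficients, such that for every infinite
field `K` some `C μ` does not vanish at `c` iff the determinant is nonzero for some `D, φ`; similarly
`C₀` for `φ = 0`. -/
theorem det_family (d : Dag m i) :
    ∃ (C : ((Fin m × d.G) ⊕ d.G →₀ ℕ) → MvPolynomial (Perm (Fin m)) ℤ)
      (C₀ : (Fin m × d.G →₀ ℕ) → MvPolynomial (Perm (Fin m)) ℤ),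
      ∀ (K : Type) [Field K] [Infinite K] (c : Perm (Fin m) → K),
        ((∃ μ, MvPolynomial.aeval c (C μ) ≠ 0) ↔
          ∃ (D : Fin m → d.G → K) (φ : d.G → K), (LamD c i d.h D φ).det ≠ 0) ∧
        ((∃ μ, MvPolynomial.aeval c (C₀ μ) ≠ 0) ↔
          ∃ (D : Fin m → d.G → K), (LamD c i d.h D 0).det ≠ 0) := by
  refine ⟨fun μ => (MR8 (A := MvPolynomial ((Fin m × d.G) ⊕ d.G) (MvPolynomial (Perm (Fin m)) ℤ)) i
    d.h (fun σ => MvPolynomial.C (MvPolynomial.X σ)) (fun j a => MvPolynomial.X (Sum.inl (j, a)))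
    (fun a => MvPolynomial.X (Sum.inr a))).det.coeff μ,
    fun μ => (MR8 (A := MvPolynomial (Fin m × d.G) (MvPolynomial (Perm (Fin m)) ℤ)) i
    d.h (fun σ => MvPolynomial.C (MvPolynomial.X σ)) (fun j a => MvPolynomial.X (j, a))
    (fun _ => 0)).det.coeff μ, ?_⟩
  intro K _ _ c
  have hc : ∀ σ, (MvPolynomial.aeval c : MvPolynomial (Perm (Fin m)) ℤ →ₐ[ℤ] K).toRingHom
      (MvPolynomial.X σ) = c σ := fun σ => MvPolynomial.aeval_X _ _
  constructor
  · rw [fam8]
    constructor
    · rintro ⟨x, hx⟩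
      rw [MR8_map] at hx
      refine ⟨fun j a => x (Sum.inl (j, a)), fun a => x (Sum.inr a), ?_⟩
      simpa only [MvPolynomial.eval₂Hom_C, MvPolynomial.eval₂Hom_X', hc] using hx
    · rintro ⟨D, φ, hD⟩
      refine ⟨Sum.elim (fun y => D y.1 y.2) φ, ?_⟩
      rw [MR8_map]
      simpa only [MvPolynomial.eval₂Hom_C, MvPolynomial.eval₂Hom_X', hc, Sum.elim_inl,
        Sum.elim_inr] using hD
  · rw [fam8]
    constructor
    · rintro ⟨x, hx⟩
      rw [MR8_map] at hx
      refine ⟨fun j a => x (j, a), ?_⟩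
      simp only [MvPolynomial.eval₂Hom_C, MvPolynomial.eval₂Hom_X', hc, map_zero] at hx
      exact hx
    · rintro ⟨D, hD⟩
      refine ⟨fun y => D y.1 y.2, ?_⟩
      rw [MR8_map]
      simp only [MvPolynomial.eval₂Hom_C, MvPolynomial.eval₂Hom_X', hc, map_zero]
      exact hD

end ALK
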