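import Mathlib

set_option autoImplicit false

/-!
# P9: certificates in characteristic `p` (Mathlib only, size S-M, adapt `AS/E06.lean`)

As `cert` (AS/E06), over the prime field `ZMod p`: let `I` be the ideal of `(ZMod p)[σ]` generated by the
images of the `P k`. By `MvPolynomial.vanishingIdeal_zeroLocus_eq_radical` (for `k = ZMod p`, `K = Ω`, algebraically
closed) the image of `g` lies in the radical of `I`: `g ^ e = ∑_{k ∈ s} a_k P_k` in `(ZMod p)[σ]`, `s` finite.
Evaluate at `x ∈ K ^ σ`, `K` a field of characteristic `p` (`ZMod.algebra K p`; the evaluation of the image of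
an integer polynomial is `aeval x`), with `P_k(x) = 0` for `k ∈ s`: `g(x) ^ e = 0`.
-/

namespace ALK

private theorem map_evalp {p : ℕ} {σ : Type*} {K : Type*} [Field K] [CharP K p] (x : σ → K)
    (r : MvPolynomial σ ℤ) :
    MvPolynomial.eval₂ (ZMod.castHom (dvd_refl p) K) x (MvPolynomial.map (Int.castRingHom (ZMod p)) r) =
      MvPolynomial.aeval x r := by
  rw [MvPolynomial.eval₂_map, MvPolynomial.aeval_def]
  congr 1
  exact RingHom.ext_int _ _

private theorem span_finp {p : ℕ} {σ : Type*} {ι : Type*} (P : ι → MvPolynomial σ ℤ)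
    (q : MvPolynomial σ (ZMod p))
    (hq : q ∈ Ideal.span (Set.range fun k => MvPolynomial.map (Int.castRingHom (ZMod p)) (P k))) :
    ∃ s : Finset ι, ∀ (K : Type) [Field K] [CharP K p], ∀ x : σ → K,
      (∀ k ∈ s, MvPolynomial.aeval x (P k) = 0) →
        MvPolynomial.eval₂ (ZMod.castHom (dvd_refl p) K) x q = 0 := by
  classical
  induction hq using Submodule.span_induction with
  | mem x hx =>
    obtain ⟨k, rfl⟩ := hx
    refine ⟨{k}, fun K _ _ x h => ?_⟩
    rw [map_evalp]
    exact h k (by simp)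
  | zero => exact ⟨∅, fun K _ _ x h => MvPolynomial.eval₂_zero _ _⟩
  | add p q _ _ hp hq =>
    obtain ⟨s, hs⟩ := hp
    obtain ⟨t, ht⟩ := hq
    refine ⟨s ∪ t, fun K _ _ x h => ?_⟩
    rw [MvPolynomial.eval₂_add, hs K x (fun k hk => h k (Finset.mem_union_left _ hk)),
      ht K x (fun k hk => h k (Finset.mem_union_right _ hk)), add_zero]
  | smul a q _ hq =>
    obtain ⟨s, hs⟩ := hq
    refine ⟨s, fun K _ _ x h => ?_⟩
    rw [smul_eq_mul, MvPolynomial.eval₂_mul, hs K x h, mul_zero]

theorem cert_p (p : ℕ) [Fact p.Prime] {Ω : Type*} [Field Ω] [CharP Ω p] [IsAlgClosed Ω]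
    {σ : Type*} [Finite σ] {ι : Type*} (P : ι → MvPolynomial σ ℤ) (g : MvPolynomial σ ℤ)
    (h : ∀ x : σ → Ω, (∀ k, MvPolynomial.aeval x (P k) = 0) → MvPolynomial.aeval x g = 0) :
    ∃ s : Finset ι, ∀ (K : Type) [Field K] [CharP K p], ∀ x : σ → K,
      (∀ k ∈ s, MvPolynomial.aeval x (P k) = 0) → MvPolynomial.aeval x g = 0 := by
  letI : Algebra (ZMod p) Ω := ZMod.algebra Ω p
  have hmap : ∀ (x : σ → Ω) (r : MvPolynomial σ ℤ),
      MvPolynomial.aeval x (MvPolynomial.map (Int.castRingHom (ZMod p)) r) =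
        MvPolynomial.aeval x r := by
    intro x r
    rw [MvPolynomial.aeval_def, MvPolynomial.eval₂_map, MvPolynomial.aeval_def]
    congr 1
    exact RingHom.ext_int _ _
  have h1 : MvPolynomial.map (Int.castRingHom (ZMod p)) g ∈
      (Ideal.span (Set.range fun k =>
        MvPolynomial.map (Int.castRingHom (ZMod p)) (P k))).radical := by
    rw [← MvPolynomial.vanishingIdeal_zeroLocus_eq_radical (K := Ω),
      MvPolynomial.mem_vanishingIdeal_iff]
    intro x hx
    rw [hmap]
    apply h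
    intro k
    rw [← hmap]
    exact hx _ (Ideal.subset_span ⟨k, rfl⟩)
  obtain ⟨e, he⟩ := h1
  obtain ⟨s, hs⟩ := span_finp P _ he
  refine ⟨s, fun K _ _ x hx => ?_⟩
  have h2 := hs K x hx
  rw [MvPolynomial.eval₂_pow, map_evalp] at h2
  exact pow_eq_zero_iff (fun h0 => by rw [h0, pow_zero] at h2; exact one_ne_zero h2) |>.1 h2

end ALK
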