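import Pool.Agent.Work.MP_05d08f_al.AX.P7
import Pool.Agent.Work.MP_05d08f_al.AX.P8
import Pool.Agent.Work.MP_05d08f_al.AX.P9

set_option autoImplicit false

/-!
# P10: uniform data in characteristic `p` (size M, assembly of P7, P8, P9; compare `AS/E07.lean`)

CLAIM: for `m`, `i`, `X` and a prime `p` there is a finite list `L` of data, the prime factors of `card d.G` being `> X`
for `d ∈ L`, such that for every infinite field `K` of characteristic `p` and `c ≠ 0` some `d ∈ L` is good for `c`.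

PROOF. `Ω = AlgebraicClosure (ZMod p)`. Call `d : Dag m i` admissible if the prime factors of `card d.G` are `> X` and
`p` does not divide `card d.G`. For an admissible `d` let `C_{d, μ}`, `C₀_{d, μ}` be the families of `det_family`. For
`σ₀ : Perm (Fin m)` let `t_{σ₀} = ∑_σ (if wr σ i ++ wl σ i = wr σ₀ i ++ wl σ₀ i then X σ else 0) ∈ ℤ[X_σ]`; `TL c i` iff
all `t_{σ₀}` vanish at `c`.
(1) For each `σ₀`, `cert_p` applies to the family of all `C₀_{d, μ}` (`d` admissible), and `g = t_{σ₀}`: if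
`x : Perm (Fin m) → Ω` is a common zero and `¬ TL x i`, then `x ≠ 0` and `exists_data_p` gives `d` with
`Good x d` (`d` is admissible because `card d.G ≠ 0` in `Ω`), with `φ = 0` because `¬ TL x i`; by `det_family`
(`Ω` is infinite) some `C₀_{d, μ}` does not vanish at `x`, a contradiction. So `TL x i` and `g(x) = 0`. Result:
finite sets `s_{σ₀}`.
(2) For each `σ₁`, `cert_p` applies to the family consisting of the `C_{d, μ}` (`d` admissible) and of the
`t_{σ₀}`, and `g = X σ₁`: at a common zero `x` we have `TL x i`, and if `x ≠ 0` then `exists_data_p` and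
`det_family` give some `C_{d, μ}` with nonzero value; so `x = 0`. Result: finite sets `s'_{σ₁}`.
`L` = all `d` occurring in these finite sets. Now let `K` (infinite, characteristic `p`), `c ≠ 0`. If `TL c i`: choose
`σ₁` with `c σ₁ ≠ 0`; by (2) some index of `s'_{σ₁}` has nonzero value at `c`, it is not one of the `t_{σ₀}`, so it is
some `C_{d, μ}`, and `det_family` gives `D, φ`: `Good c d` (`card d.G ≠ 0` in `K` as `p ∤ card d.G`, `CharP.cast_eq_zero_iff`).
If `¬ TL c i`: some `t_{σ₀}` does not vanish at `c`, (1) gives `C₀_{d, μ}` and `Good c d` with `φ = 0`.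
-/

namespace ALK

open Equiv MLI Matrix

open Classical in
/-- The polynomial of a class of cyclic words. -/
private noncomputable def tp10 {m : ℕ} (i : Fin m) (σ₀ : Perm (Fin m)) :
    MvPolynomial (Perm (Fin m)) ℤ :=
  ∑ σ : Perm (Fin m), if wr σ i ++ wl σ i = wr σ₀ i ++ wl σ₀ i then MvPolynomial.X σ else 0

open Classical in
private theorem tp10_aeval {m : ℕ} (i : Fin m) (σ₀ : Perm (Fin m)) {K : Type} [Field K]
    (c : Perm (Fin m) → K) : MvPolynomial.aeval c (tp10 i σ₀) =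
      ∑ σ : Perm (Fin m), if wr σ i ++ wl σ i = wr σ₀ i ++ wl σ₀ i then c σ else 0 := by
  unfold tp10
  rw [map_sum]
  refine Finset.sum_congr rfl fun σ _ => ?_
  split_ifs
  · rw [MvPolynomial.aeval_X]
  · exact map_zero _

private theorem tl10_iff {m : ℕ} (i : Fin m) {K : Type} [Field K] (c : Perm (Fin m) → K) :
    TL c i ↔ ∀ σ₀, MvPolynomial.aeval c (tp10 i σ₀) = 0 := by
  unfold TL
  exact forall_congr' fun σ₀ => by rw [tp10_aeval]

/-- Admissible data. -/
private abbrev A10 (m : ℕ) (i : Fin m) (X p : ℕ) : Type :=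
  {d : Dag m i // (∀ s : ℕ, s.Prime → s ∣ Fintype.card d.G → X < s) ∧ ¬ p ∣ Fintype.card d.G}

theorem uniform_p (m : ℕ) (i : Fin m) (X p : ℕ) (hp : p.Prime) :
    ∃ L : List (Dag m i), (∀ d ∈ L, ∀ s : ℕ, s.Prime → s ∣ Fintype.card d.G → X < s) ∧
      ∀ (K : Type) [Field K] [Infinite K] [CharP K p], ∀ c : Perm (Fin m) → K, c ≠ 0 →
        ∃ d ∈ L, Good c d := by
  classical
  haveI : Fact p.Prime := ⟨hp⟩
  haveI hinf : Infinite (AlgebraicClosure (ZMod p)) := inferInstance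
  choose C C₀ hC using fun d : A10 m i X p => det_family d.1
  -- data over the algebraic closure
  have hdata : ∀ x : Perm (Fin m) → AlgebraicClosure (ZMod p), x ≠ 0 →
      ∃ (d : A10 m i X p) (D : Fin m → d.1.G → AlgebraicClosure (ZMod p))
        (φ : d.1.G → AlgebraicClosure (ZMod p)), (φ = 0 ∨ TL x i) ∧
        (LamD x i d.1.h D φ).det ≠ 0 := by
    intro x hx
    obtain ⟨d, hd, hd1, D, φ, h1, h2⟩ := exists_data_p p x hx i X
    refine ⟨⟨d, hd, fun hdvd => hd1 ?_⟩, D, φ, h1, h2⟩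
    exact (CharP.cast_eq_zero_iff (AlgebraicClosure (ZMod p)) p _).2 hdvd
  -- step 1
  have h1 : ∀ σ₀ : Perm (Fin m), ∃ s : Finset (Σ d : A10 m i X p, (Fin m × d.1.G →₀ ℕ)),
      ∀ (K : Type) [Field K] [CharP K p], ∀ x : Perm (Fin m) → K,
        (∀ k ∈ s, MvPolynomial.aeval x (C₀ k.1 k.2) = 0) →
          MvPolynomial.aeval x (tp10 i σ₀) = 0 := by
    intro σ₀
    refine cert_p p (Ω := AlgebraicClosure (ZMod p))
      (fun k : Σ d : A10 m i X p, (Fin m × d.1.G →₀ ℕ) => C₀ k.1 k.2) (tp10 i σ₀) ?_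
    intro x hx
    by_contra hcon
    have hTL : ¬ TL x i := fun h => hcon ((tl10_iff i x).1 h σ₀)
    have hx0 : x ≠ 0 := by
      rintro rfl
      apply hcon
      rw [tp10_aeval]
      exact Finset.sum_eq_zero fun σ _ => by rw [Pi.zero_apply, ite_self]
    obtain ⟨d, D, φ, h3, h4⟩ := hdata x hx0
    have hφ : φ = 0 := h3.resolve_right hTL
    subst hφ
    obtain ⟨μ, hμ⟩ := ((hC d _ x).2).2 ⟨D, h4⟩
    exact hμ (hx ⟨d, μ⟩)
  -- step 2
  have h2 : ∀ σ₁ : Perm (Fin m), ∃ s : Finset ((Σ d : A10 m i X p,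
      ((Fin m × d.1.G) ⊕ d.1.G →₀ ℕ)) ⊕ Perm (Fin m)),
      ∀ (K : Type) [Field K] [CharP K p], ∀ x : Perm (Fin m) → K,
        (∀ k ∈ s, MvPolynomial.aeval x (Sum.elim (fun k => C k.1 k.2) (tp10 i) k) = 0) →
          MvPolynomial.aeval x (MvPolynomial.X σ₁ : MvPolynomial (Perm (Fin m)) ℤ) = 0 := by
    intro σ₁
    refine cert_p p (Ω := AlgebraicClosure (ZMod p)) (Sum.elim
      (fun k : Σ d : A10 m i X p, ((Fin m × d.1.G) ⊕ d.1.G →₀ ℕ) => C k.1 k.2) (tp10 i))
      (MvPolynomial.X σ₁) ?_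
    intro x hx
    by_contra hcon
    have hx0 : x ≠ 0 := by
      rintro rfl
      apply hcon
      rw [MvPolynomial.aeval_X]
      rfl
    obtain ⟨d, D, φ, _, h4⟩ := hdata x hx0
    obtain ⟨μ, hμ⟩ := ((hC d _ x).1).2 ⟨D, φ, h4⟩
    exact hμ (hx (Sum.inl ⟨d, μ⟩))
  choose s hs using h1
  choose s' hs' using h2
  let g : (Σ d : A10 m i X p, ((Fin m × d.1.G) ⊕ d.1.G →₀ ℕ)) ⊕ Perm (Fin m) →
    Finset (Dag m i) := Sum.elim (fun y => {y.1.1}) (fun _ => ∅)
  let L : Finset (Dag m i) := (Finset.univ.biUnion fun σ₀ => (s σ₀).image fun k => k.1.1) ∪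
    (Finset.univ.biUnion fun σ₁ => (s' σ₁).biUnion g)
  refine ⟨L.toList, ?_, ?_⟩
  · intro d hd
    rw [Finset.mem_toList, Finset.mem_union] at hd
    rcases hd with hd | hd
    · obtain ⟨σ₀, _, hd⟩ := Finset.mem_biUnion.1 hd
      obtain ⟨k, _, rfl⟩ := Finset.mem_image.1 hd
      exact k.1.2.1
    · obtain ⟨σ₁, _, hd⟩ := Finset.mem_biUnion.1 hd
      obtain ⟨k, _, hd⟩ := Finset.mem_biUnion.1 hd
      rcases k with k | k
      · have h3 : d = k.1.1 := Finset.mem_singleton.1 hd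
        rw [h3]
        exact k.1.2.1
      · exact absurd hd (Finset.notMem_empty _)
  · intro K _ _ _ c hc
    by_cases hTL : TL c i
    · obtain ⟨σ₁, hσ₁⟩ : ∃ σ₁, c σ₁ ≠ 0 := by
        by_contra hcon
        push Not at hcon
        exact hc (funext hcon)
      have h3 : ∃ k ∈ s' σ₁,
          MvPolynomial.aeval c (Sum.elim (fun k => C k.1 k.2) (tp10 i) k) ≠ 0 := by
        by_contra hcon
        push Not at hcon
        have h4 := hs' σ₁ K c hcon
        rw [MvPolynomial.aeval_X] at h4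
        exact hσ₁ h4
      obtain ⟨k, hk, hk'⟩ := h3
      rcases k with y | σ₀
      · obtain ⟨D, φ, hD⟩ := ((hC y.1 K c).1).1 ⟨y.2, hk'⟩
        refine ⟨y.1.1, ?_, ?_, D, φ, Or.inr hTL, hD⟩
        · rw [Finset.mem_toList, Finset.mem_union]
          right
          refine Finset.mem_biUnion.2 ⟨σ₁, Finset.mem_univ _, Finset.mem_biUnion.2
            ⟨_, hk, ?_⟩⟩
          exact Finset.mem_singleton_self _
        · exact fun h0 => y.1.2.2 ((CharP.cast_eq_zero_iff K p _).1 h0)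
      · exact absurd ((tl10_iff i c).1 hTL σ₀) hk'
    · obtain ⟨σ₀, hσ₀⟩ : ∃ σ₀, MvPolynomial.aeval c (tp10 i σ₀) ≠ 0 := by
        by_contra hcon
        push Not at hcon
        exact hTL ((tl10_iff i c).2 hcon)
      have h3 : ∃ k ∈ s σ₀, MvPolynomial.aeval c (C₀ k.1 k.2) ≠ 0 := by
        by_contra hcon
        push Not at hcon
        exact hσ₀ (hs σ₀ K c hcon)
      obtain ⟨k, hk, hk'⟩ := h3
      obtain ⟨D, hD⟩ := ((hC k.1 K c).2).1 ⟨k.2, hk'⟩
      refine ⟨k.1.1, ?_, ?_, D, 0, Or.inl rfl, hD⟩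
      · rw [Finset.mem_toList, Finset.mem_union]
        left
        exact Finset.mem_biUnion.2 ⟨σ₀, Finset.mem_univ _, Finset.mem_image.2 ⟨k, hk, rfl⟩⟩
      · exact fun h0 => k.1.2.2 ((CharP.cast_eq_zero_iff K p _).1 h0)

end ALK
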