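import Pool.Agent.Work.MP_05d08f_al.AX.P10

set_option autoImplicit false

/-!
# P11: uniform data for all infinite fields (size S-M)

`uniform_data m i X` (AS/E07) gives a list `L₀` (of `Dat m i`, all primes `> X`) and `N ≥ 1` which work for all
fields `K` with `N ≠ 0` in `K`. Let `N' = N * ∏_{d ∈ L₀} card d.G ≥ 1`. For each prime `p ∣ N'` let `L_p` be the list of
`uniform_p m i X p`. Let `L` be the list of the `d.dag`, `d ∈ L₀` (`Dat.dag`; `d.dag.G = d.G` definitionally),
together with all lists `L_p`, `p ∣ N'` prime (`List.flatMap` over `N'.primeFactorsList` with `attach` or choose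
a function `p ↦ L_p` with `if` for non primes). For `d ∈ L₀` the prime factors of `card d.G = ∏ d.p u` (see `card_G` in
AS/Main) are the `d.p u > X` (`Prime.exists_mem_finset_dvd`, `Nat.prime_dvd_prime_iff_eq`).
Now let `K` be infinite and `c ≠ 0`. If `N' ≠ 0` in `K`: `N ≠ 0` and `card d.G ≠ 0` in `K` for `d ∈ L₀`;
`uniform_data` gives `d ∈ L₀` with `D, φ`, so `Good c d.dag`. If `N' = 0` in `K` then `K` has characteristic `p`, a
prime dividing `N'` (`CharP.exists`, `CharP.char_is_prime_or_zero`, `N' ≠ 0` excludes characteristic 0), and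
`uniform_p` applies.
-/

namespace ALK

open Equiv MLI Matrix

theorem uniform_all (m : ℕ) (i : Fin m) (X : ℕ) :
    ∃ L : List (Dag m i), (∀ d ∈ L, ∀ s : ℕ, s.Prime → s ∣ Fintype.card d.G → X < s) ∧
      ∀ (K : Type) [Field K] [Infinite K], ∀ c : Perm (Fin m) → K, c ≠ 0 → ∃ d ∈ L, Good c d := by
  classical
  obtain ⟨L₀, N, hN, hL₀, hU⟩ := uniform_data m i X
  have hp : ∀ p : ℕ, ∃ L : List (Dag m i),
      (∀ d ∈ L, ∀ s : ℕ, s.Prime → s ∣ Fintype.card d.G → X < s) ∧
      (p.Prime → ∀ (K : Type) [Field K] [Infinite K] [CharP K p], ∀ c : Perm (Fin m) → K, c ≠ 0 →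
        ∃ d ∈ L, Good c d) := by
    intro p
    by_cases hp : p.Prime
    · obtain ⟨L, h1, h2⟩ := uniform_p m i X p hp
      exact ⟨L, h1, fun _ => h2⟩
    · exact ⟨[], fun d hd => absurd hd (List.not_mem_nil), fun h => absurd h hp⟩
  choose Lp hLp1 hLp2 using hp
  have hprod : (L₀.map fun d => Fintype.card d.G).prod ≠ 0 := by
    rw [Ne, List.prod_eq_zero_iff]
    intro h
    obtain ⟨d, _, hd⟩ := List.mem_map.1 h
    exact Fintype.card_ne_zero hd
  have hN' : N * (L₀.map fun d => Fintype.card d.G).prod ≠ 0 := mul_ne_zero hN hprod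
  refine ⟨L₀.map Dat.dag ++
    (N * (L₀.map fun d => Fintype.card d.G).prod).primeFactorsList.flatMap Lp, ?_, ?_⟩
  · intro d hd s hs hsd
    rcases List.mem_append.1 hd with h | h
    · obtain ⟨d₀, hd₀, rfl⟩ := List.mem_map.1 h
      have hc : Fintype.card d₀.dag.G = ∏ u, d₀.p u := card_G d₀
      rw [hc] at hsd
      obtain ⟨u, _, hu⟩ := (Prime.dvd_finsetProd_iff hs.prime _).1 hsd
      rw [(Nat.prime_dvd_prime_iff_eq hs (d₀.hp u)).1 hu]
      exact hL₀ d₀ hd₀ u
    · obtain ⟨p, _, hp⟩ := List.mem_flatMap.1 h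
      exact hLp1 p d hp s hs hsd
  · intro K _ _ c hc
    by_cases h0 : ((N * (L₀.map fun d => Fintype.card d.G).prod : ℕ) : K) = 0
    · obtain ⟨p, hp⟩ := CharP.exists K
      have hpr : p.Prime := by
        rcases CharP.char_is_prime_or_zero K p with h | h
        · exact h
        · subst h
          have := CharP.charP_to_charZero K
          exact absurd (Nat.cast_eq_zero.1 h0) hN'
      have hdvd := (CharP.cast_eq_zero_iff K p _).1 h0
      obtain ⟨d, hd, hg⟩ := hLp2 p hpr K c hc
      exact ⟨d, List.mem_append_right _ (List.mem_flatMap.2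
        ⟨p, (Nat.mem_primeFactorsList hN').2 ⟨hpr, hdvd⟩, hd⟩), hg⟩
    · rw [Nat.cast_mul] at h0
      obtain ⟨d, hd, D, φ, hφ, hdet⟩ := hU K (left_ne_zero_of_mul h0) c hc
      refine ⟨d.dag, List.mem_append_left _ (List.mem_map_of_mem hd), ?_, D, φ, hφ, hdet⟩
      intro h
      apply right_ne_zero_of_mul h0
      have hdv : Fintype.card d.G ∣ (L₀.map fun d => Fintype.card d.G).prod :=
        List.dvd_prod (List.mem_map_of_mem hd)
      obtain ⟨e, he⟩ := hdv
      rw [he, Nat.cast_mul]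
      have h' : ((Fintype.card d.G : ℕ) : K) = 0 := h
      rw [h', zero_mul]

end ALK
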