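import Mathlib

set_option autoImplicit false

/-!
# P2: separation modulo `ℓ_u` (Mathlib only, size M-L)

`Ω` a field of characteristic `p`, `Q = p ^ a`, `a ≥ 1`, `M ≥ 1`; different primes `ℓ_u ≠ p`, and
primitive roots of unity `ζ_u` of order `ℓ_u ^ (κ_u + 1)` where `ℓ_u ^ κ_u` divides `Q ^ M - 1` and
`ℓ_u ^ (κ_u + 1)` does not, and `κ_u ≥ 1`. CLAIM (T1): if `∑_σ c σ * ∏_u ζ_u ^ e_σ(u) = 0` with coefficients
`c σ ^ Q = c σ`, then the sum over each class of `σ`s with `e_σ(u) ≡ r_u` modulo `ℓ_u` for all `u` is zero.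

PROOF. Let `Fr y = y ^ (Q ^ M)`, a ring homomorphism (`iterateFrobenius Ω p (a * M)`); `Fr (c σ) = c σ`
(iterate `c ^ Q = c`). Let `η_u = ζ_u ^ (Q ^ M - 1)`: as `Q ^ M - 1 = ℓ_u ^ κ_u * m_u` with `ℓ_u ∤ m_u`, `η_u` is a primitive
`ℓ_u`-th root of unity (`IsPrimitiveRoot.pow`/`orderOf_pow`), `Fr ζ_u = ζ_u * η_u` and
`Fr η_u = η_u` (`ℓ_u ∣ Q ^ M - 1`). Put `A σ = c σ * ∏_u ζ_u ^ e_σ(u)` and `x σ = ∏_u η_u ^ e_σ(u)`. Then
`Fr (A σ * x σ ^ j) = A σ * x σ ^ (j + 1)`, so `∑_σ A σ * x σ ^ j = 0` for all `j`. Group by the values of `x`: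
for each value `y` the sum of `A σ` over the `σ` with `x σ = y` is zero (Vandermonde:
`Matrix.eq_zero_of_forall_pow_sum_mul_pow_eq_zero` and its variants, `Matrix.det_vandermonde_ne_zero_iff`;
or: for every polynomial `f`, `∑ A σ f (x σ) = 0`; take `f = ∏_{y' ≠ y} (X - y')` over the other values).
Finally `x σ = x τ` iff `e_σ(u) ≡ e_τ(u)` modulo `ℓ_u` for all `u`: `⇐` is clear (`η_u ^ ℓ_u = 1`); for `⇒` raise to the
power `L_u = ∏_{v ≠ u} ℓ_v`: `η_u ^ (e_σ(u) L_u) = η_u ^ (e_τ(u) L_u)`, and `ℓ_u` does not divide `L_u`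
(`IsPrimitiveRoot.pow_inj`-like facts, `pow_eq_pow_iff_modEq`, `Nat.ModEq.cancel_right_of_coprime`).
So the class of the residues `r` is empty or the class of the value `x σ₀` of one of its elements.
-/

namespace ALK

private theorem pow_iter {Ω : Type*} [Field Ω] {c : Ω} {Q : ℕ} (h : c ^ Q = c) (M : ℕ) :
    c ^ (Q ^ M) = c := by
  induction M with
  | zero => simp
  | succ M ih => rw [pow_succ, pow_mul, ih, h]

private theorem group_zero {Ω : Type*} [Field Ω] {S : Type} (T : Finset S) (A x : S → Ω)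
    (h : ∀ j : ℕ, ∑ σ ∈ T, A σ * x σ ^ j = 0) (y : Ω) [DecidablePred (fun σ => x σ = y)] :
    ∑ σ ∈ T.filter (fun σ => x σ = y), A σ = 0 := by
  classical
  have h1 : ∀ f : Polynomial Ω, ∑ σ ∈ T, A σ * f.eval (x σ) = 0 := by
    intro f
    have : ∀ σ, A σ * f.eval (x σ) =
        ∑ j ∈ Finset.range (f.natDegree + 1), f.coeff j * (A σ * x σ ^ j) := by
      intro σ
      rw [Polynomial.eval_eq_sum_range, Finset.mul_sum]
      exact Finset.sum_congr rfl fun j _ => by ring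
    rw [Finset.sum_congr rfl fun σ _ => this σ, Finset.sum_comm]
    refine Finset.sum_eq_zero fun j _ => ?_
    rw [← Finset.mul_sum, h, mul_zero]
  let f : Polynomial Ω := ∏ y' ∈ (T.image x).erase y, (Polynomial.X - Polynomial.C y')
  have hf : ∀ z, f.eval z = ∏ y' ∈ (T.image x).erase y, (z - y') := by
    intro z
    simp only [f]
    rw [Polynomial.eval_prod]
    exact Finset.prod_congr rfl fun y' _ => by simp
  have h2 := h1 f
  rw [← Finset.sum_filter_add_sum_filter_not T (fun σ => x σ = y)] at h2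
  have h3 : ∑ σ ∈ T.filter (fun σ => ¬ x σ = y), A σ * f.eval (x σ) = 0 := by
    refine Finset.sum_eq_zero fun σ hσ => ?_
    rw [Finset.mem_filter] at hσ
    rw [hf, Finset.prod_eq_zero (i := x σ) (Finset.mem_erase.2 ⟨hσ.2, Finset.mem_image_of_mem x hσ.1⟩)
      (sub_self _), mul_zero]
  rw [h3, add_zero] at h2
  have h4 : ∑ σ ∈ T.filter (fun σ => x σ = y), A σ * f.eval (x σ) =
      (∑ σ ∈ T.filter (fun σ => x σ = y), A σ) * f.eval y := by
    rw [Finset.sum_mul]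
    refine Finset.sum_congr rfl fun σ hσ => ?_
    rw [(Finset.mem_filter.1 hσ).2]
  rw [h4] at h2
  refine (mul_eq_zero.1 h2).resolve_right ?_
  rw [hf]
  exact Finset.prod_ne_zero_iff.2 fun y' hy' => sub_ne_zero.2 (Finset.mem_erase.1 hy').1.symm

private theorem prod_pow_iff {Ω : Type*} [Field Ω] {k : ℕ} (ℓ : Fin k → ℕ) (η : Fin k → Ω)
    (hℓ : ∀ u, (ℓ u).Prime) (hinj : Function.Injective ℓ) (hη : ∀ u, IsPrimitiveRoot (η u) (ℓ u))
    (e e' : Fin k → ℕ) :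
    (∏ u, η u ^ e u = ∏ u, η u ^ e' u) ↔ ∀ u, e u % ℓ u = e' u % ℓ u := by
  have hiff : ∀ u (s t : ℕ), η u ^ s = η u ^ t ↔ s ≡ t [MOD ℓ u] := by
    intro u s t
    rw [(hη u).eq_orderOf]
    have hne : η u ≠ 0 := (hη u).ne_zero (hℓ u).ne_zero
    have h1 : orderOf (Units.mk0 (η u) hne) = orderOf (η u) := by
      rw [← orderOf_units]; rfl
    rw [← h1, ← pow_eq_pow_iff_modEq, Units.ext_iff]
    simp
  constructor
  · intro h u
    let L : ℕ := ∏ v ∈ Finset.univ.erase u, ℓ v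
    have key : ∀ g : Fin k → ℕ, (∏ v, η v ^ g v) ^ L = η u ^ (g u * L) := by
      intro g
      rw [← Finset.prod_pow, ← Finset.mul_prod_erase Finset.univ _ (Finset.mem_univ u)]
      have : ∏ v ∈ Finset.univ.erase u, (η v ^ g v) ^ L = 1 := by
        refine Finset.prod_eq_one fun v hv => ?_
        obtain ⟨w, hw⟩ := Finset.dvd_prod_of_mem ℓ hv
        have hw' : L = ℓ v * w := hw
        rw [← pow_mul, hw', show g v * (ℓ v * w) = ℓ v * (g v * w) by ring, pow_mul,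
          (hη v).pow_eq_one, one_pow]
      rw [this, mul_one, pow_mul]
    have h1 : η u ^ (e u * L) = η u ^ (e' u * L) := by rw [← key e, ← key e', h]
    have h2 := (hiff u _ _).1 h1
    have hcop : Nat.gcd (ℓ u) L = 1 := by
      refine Nat.Coprime.prod_right fun v hv => ?_
      exact (Nat.coprime_primes (hℓ u) (hℓ v)).2 fun h3 => (Finset.mem_erase.1 hv).1 (hinj h3).symm
    exact Nat.ModEq.cancel_right_of_coprime hcop h2
  · intro h
    exact Finset.prod_congr rfl fun u _ => (hiff u _ _).2 (h u)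

theorem sepa {Ω : Type*} [Field Ω] (p : ℕ) [Fact p.Prime] [CharP Ω p] (a M k : ℕ) (ha : 1 ≤ a)
    (hM : 1 ≤ M) (ℓ κ : Fin k → ℕ) (ζ : Fin k → Ω) (hℓ : ∀ u, (ℓ u).Prime)
    (hinj : Function.Injective ℓ) (hκ : ∀ u, 1 ≤ κ u)
    (h1 : ∀ u, ℓ u ^ κ u ∣ (p ^ a) ^ M - 1) (h2 : ∀ u, ¬ ℓ u ^ (κ u + 1) ∣ (p ^ a) ^ M - 1)
    (hζ : ∀ u, IsPrimitiveRoot (ζ u) (ℓ u ^ (κ u + 1)))
    {S : Type} (T : Finset S) (c : S → Ω) (e : S → Fin k → ℕ) (hc : ∀ σ ∈ T, c σ ^ (p ^ a) = c σ)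
    (h0 : ∑ σ ∈ T, c σ * ∏ u, ζ u ^ e σ u = 0) (r : Fin k → ℕ) :
    ∑ σ ∈ T.filter (fun σ => ∀ u, e σ u % ℓ u = r u), c σ * ∏ u, ζ u ^ e σ u = 0 := by
  classical
  have hNpos : 0 < (p ^ a) ^ M := pow_pos (pow_pos (Fact.out : p.Prime).pos a) M
  let η : Fin k → Ω := fun u => ζ u ^ ((p ^ a) ^ M - 1)
  have hη : ∀ u, IsPrimitiveRoot (η u) (ℓ u) := by
    intro u
    obtain ⟨m, hm⟩ := h1 u
    have hcop : Nat.Coprime m (ℓ u) := by
      rw [Nat.coprime_comm, Nat.Prime.coprime_iff_not_dvd (hℓ u)]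
      rintro ⟨m', hm'⟩
      exact h2 u ⟨m', by rw [hm, hm', pow_succ]; ring⟩
    have h3 : IsPrimitiveRoot (ζ u ^ (ℓ u ^ κ u)) (ℓ u) :=
      (hζ u).pow (pow_pos (hℓ u).pos _) (pow_succ _ _)
    have h4 := h3.pow_of_coprime m hcop
    have h5 : η u = (ζ u ^ (ℓ u ^ κ u)) ^ m := by rw [← pow_mul, ← hm]
    rw [h5]
    exact h4
  have hζN : ∀ u, ζ u ^ ((p ^ a) ^ M) = ζ u * η u := by
    intro u
    show _ = ζ u * ζ u ^ ((p ^ a) ^ M - 1)
    rw [← pow_succ', Nat.sub_add_cancel hNpos]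
  have hηN : ∀ u, η u ^ ((p ^ a) ^ M) = η u := by
    intro u
    have h3 : η u ^ ((p ^ a) ^ M - 1) = 1 := by
      obtain ⟨w, hw⟩ := dvd_trans (dvd_pow_self (ℓ u) (by have := hκ u; omega)) (h1 u)
      rw [hw, pow_mul, (hη u).pow_eq_one, one_pow]
    calc η u ^ ((p ^ a) ^ M) = η u ^ ((p ^ a) ^ M - 1) * η u := by
          rw [← pow_succ, Nat.sub_add_cancel hNpos]
      _ = η u := by rw [h3, one_mul]
  let A : S → Ω := fun σ => c σ * ∏ u, ζ u ^ e σ u
  let x : S → Ω := fun σ => ∏ u, η u ^ e σ u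
  have hA : ∀ σ ∈ T, A σ ^ ((p ^ a) ^ M) = A σ * x σ := by
    intro σ hσ
    simp only [A, x]
    rw [mul_pow, pow_iter (hc σ hσ), ← Finset.prod_pow, mul_assoc, ← Finset.prod_mul_distrib]
    congr 1
    refine Finset.prod_congr rfl fun u _ => ?_
    rw [← pow_mul, mul_comm, pow_mul, hζN, mul_pow]
  have hx : ∀ σ, x σ ^ ((p ^ a) ^ M) = x σ := by
    intro σ
    simp only [x]
    rw [← Finset.prod_pow]
    refine Finset.prod_congr rfl fun u _ => ?_
    rw [← pow_mul, mul_comm, pow_mul, hηN]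
  have hsum : ∀ j : ℕ, ∑ σ ∈ T, A σ * x σ ^ j = 0 := by
    intro j
    induction j with
    | zero => simpa [A] using h0
    | succ j ih =>
      have h3 := congrArg (iterateFrobenius Ω p (a * M)) ih
      rw [map_sum, map_zero] at h3
      rw [← h3]
      refine Finset.sum_congr rfl fun σ hσ => ?_
      rw [iterateFrobenius_def, pow_mul p a M, mul_pow, hA σ hσ, ← pow_mul, mul_comm j, pow_mul, hx,
        pow_succ]
      ring
  rcases (T.filter (fun σ => ∀ u, e σ u % ℓ u = r u)).eq_empty_or_nonempty with he | ⟨σ₀, hσ₀⟩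
  · rw [he, Finset.sum_empty]
  · have h3 := group_zero T A x hsum (x σ₀)
    have h4 : T.filter (fun σ => ∀ u, e σ u % ℓ u = r u) = T.filter (fun σ => x σ = x σ₀) := by
      refine Finset.filter_congr fun σ hσ => ?_
      have h5 := (Finset.mem_filter.1 hσ₀).2
      rw [prod_pow_iff ℓ η hℓ hinj hη (e σ) (e σ₀)]
      exact forall_congr' fun u => by rw [h5 u]
    rw [h4]
    exact h3

end ALK
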