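import Mathlib

set_option autoImplicit false

/-!
# P3: small roots of unity (Mathlib only, size M)

`Ω` a field of characteristic `p`, `Q = p ^ a`, `a ≥ 1`; `r_u`, `ℓ_u` primes, `r` injective, `D < r_u`,
`ℓ_u ∣ Q ^ r_u - 1`, `ℓ_u ∤ Q - 1`; `z_u ∈ Ω` with `z_u ^ (ℓ_u ^ κ_u) = 1`, where `ℓ_u ^ κ_u ∣ Q ^ r_u - 1`, not all
`z_u = 1`. Let `T` be a nonempty finite set, `c σ ≠ 0`, `c σ ^ Q = c σ`, exponents `e_σ(u) ≤ D` which are pairwise
different for every `u`. CLAIM (T2): `∑_σ c σ * ∏_u z_u ^ e_σ(u) ≠ 0`.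

PROOF. Fix `u` with `z_u ≠ 1` and let `M' = ∏_{v ≠ u} r_v`, `Fr y = y ^ (Q ^ M')` (`iterateFrobenius Ω p (a * M')`). `Fr` fixes the
`c σ`, and the `z_v`, `v ≠ u`: `ℓ_v ^ κ_v ∣ Q ^ r_v - 1 ∣ Q ^ M' - 1` as `r_v ∣ M'` (`Nat.sub_one_dvd…`,
`nat_sub_dvd_pow_sub_pow`), so `z_v ^ (Q ^ M') = z_v ^ (Q ^ M' - 1) * z_v = z_v`. The order of `z_u` is a power `ℓ_u ^ j`, `j ≥ 1`
(it divides `ℓ_u ^ κ_u` and is not `1`), so `ℓ_u` divides it. The elements `Fr^[n] z_u = z_u ^ (Q ^ (M' n))`,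
`0 ≤ n < r_u`, are pairwise different: if `n < n'` give the same element then, `Fr` being injective,
`z_u ^ (Q ^ (M' (n' - n))) = z_u`, so `ℓ_u ∣ orderOf z_u ∣ Q ^ (M' (n' - n)) - 1`; the order of `Q` modulo `ℓ_u` divides
`r_u` and is not `1`, so it is the prime `r_u`, and `r_u ∣ M' (n' - n)`; but `r_u ∤ M'` (different primes) and
`0 < n' - n < r_u`. Let `P = ∑_σ (c σ * ∏_{v ≠ u} z_v ^ e_σ(v)) X ^ e_σ(u) ∈ Ω[X]`; its coefficients are fixed by `Fr`, and it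
is not zero (the `e_σ(u)` are different, the coefficients are not zero, `z_v ≠ 0`), of degree `≤ D < r_u`. If
`P (z_u) = 0` then `P (Fr^[n] z_u) = Fr^[n] (P z_u) = 0` for all `n < r_u`: more than `deg P` roots
(`Polynomial.card_roots'`, or `Polynomial.eq_zero_of_natDegree_lt_card_of_eval_eq_zero`). Contradiction.
-/

namespace ALK

private theorem pow_iter3 {Ω : Type*} [Monoid Ω] {c : Ω} {Q : ℕ} (h : c ^ Q = c) (M : ℕ) :
    c ^ (Q ^ M) = c := by
  induction M with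
  | zero => simp
  | succ M ih => rw [pow_succ, pow_mul, ih, h]

theorem smallz {Ω : Type*} [Field Ω] (p : ℕ) [Fact p.Prime] [CharP Ω p] (a D k : ℕ) (ha : 1 ≤ a)
    (r ℓ κ : Fin k → ℕ) (z : Fin k → Ω) (hr : ∀ u, (r u).Prime) (hℓ : ∀ u, (ℓ u).Prime)
    (hinj : Function.Injective r) (hD : ∀ u, D < r u) (h1 : ∀ u, ℓ u ∣ (p ^ a) ^ r u - 1)
    (h2 : ∀ u, ¬ ℓ u ∣ p ^ a - 1) (h3 : ∀ u, ℓ u ^ κ u ∣ (p ^ a) ^ r u - 1)
    (hz : ∀ u, z u ^ (ℓ u ^ κ u) = 1) (hne : ∃ u, z u ≠ 1)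
    {S : Type} (T : Finset S) (hT : T.Nonempty) (c : S → Ω) (e : S → Fin k → ℕ)
    (hc : ∀ σ ∈ T, c σ ^ (p ^ a) = c σ ∧ c σ ≠ 0) (he : ∀ σ ∈ T, ∀ u, e σ u ≤ D)
    (hinj' : ∀ u, ∀ σ ∈ T, ∀ τ ∈ T, e σ u = e τ u → σ = τ) :
    ∑ σ ∈ T, c σ * ∏ u, z u ^ e σ u ≠ 0 := by
  classical
  intro h0
  obtain ⟨u, hu⟩ := hne
  have hpos : ∀ n : ℕ, 0 < (p ^ a) ^ n := fun n => pow_pos (pow_pos (Fact.out : p.Prime).pos a) n
  have hz0 : ∀ v, z v ≠ 0 := by
    intro v hv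
    have := hz v
    rw [hv, zero_pow (pow_pos (hℓ v).pos _).ne'] at this
    exact zero_ne_one this
  let M' : ℕ := ∏ v ∈ Finset.univ.erase u, r v
  -- powers fixing the other roots
  have hzF : ∀ v, v ≠ u → z v ^ ((p ^ a) ^ M') = z v := by
    intro v hv
    obtain ⟨w, hw⟩ := Finset.dvd_prod_of_mem r (Finset.mem_erase.2 ⟨hv, Finset.mem_univ v⟩)
    have hw' : M' = r v * w := hw
    have hd : (p ^ a) ^ r v - 1 ∣ (p ^ a) ^ M' - 1 := by
      have := Nat.sub_dvd_pow_sub_pow ((p ^ a) ^ r v) 1 w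
      rw [one_pow] at this
      rw [hw', pow_mul]
      exact this
    obtain ⟨t, ht⟩ := (h3 v).trans hd
    have h4 : z v ^ ((p ^ a) ^ M' - 1) = 1 := by rw [ht, pow_mul, hz, one_pow]
    calc z v ^ ((p ^ a) ^ M') = z v ^ ((p ^ a) ^ M' - 1) * z v := by
          rw [← pow_succ, Nat.sub_add_cancel (hpos M')]
      _ = z v := by rw [h4, one_mul]
  have hcop : Nat.Coprime (r u) M' := by
    refine Nat.Coprime.prod_right fun v hv => ?_
    exact (Nat.coprime_primes (hr u) (hr v)).2 fun h => (Finset.mem_erase.1 hv).1 (hinj h).symm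
  -- the order of z u
  have hord : ℓ u ∣ orderOf (z u) := by
    have hd : orderOf (z u) ∣ ℓ u ^ κ u := orderOf_dvd_of_pow_eq_one (hz u)
    obtain ⟨j, -, hj⟩ := (Nat.dvd_prime_pow (hℓ u)).1 hd
    rcases Nat.eq_zero_or_pos j with hj0 | hj0
    · exfalso
      rw [hj0, pow_zero] at hj
      exact hu (orderOf_eq_one_iff.1 hj)
    · rw [hj]
      exact dvd_pow_self _ (by omega)
  have hFr : ∀ (n : ℕ) (y : Ω), iterateFrobenius Ω p (a * M' * n) y = y ^ (((p ^ a) ^ M') ^ n) := by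
    intro n y
    rw [iterateFrobenius_def, pow_mul, pow_mul]
  have hinjz : Function.Injective (fun n : Fin (r u) => z u ^ (((p ^ a) ^ M') ^ (n : ℕ))) := by
    have key : ∀ n n' : ℕ, n < n' → n' < r u → z u ^ (((p ^ a) ^ M') ^ n) ≠ z u ^ (((p ^ a) ^ M') ^ n') := by
      intro n n' hnn hn' heq
      have e1 : z u ^ (((p ^ a) ^ M') ^ n') = (z u ^ (((p ^ a) ^ M') ^ (n' - n))) ^ (((p ^ a) ^ M') ^ n) := by
        rw [← pow_mul (z u), ← pow_add, Nat.sub_add_cancel hnn.le]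
      rw [e1, ← hFr n, ← hFr n] at heq
      have e2 : z u = z u ^ (((p ^ a) ^ M') ^ (n' - n)) := (iterateFrobenius Ω p (a * M' * n)).injective heq
      have e3 : z u ^ ((p ^ a) ^ (M' * (n' - n)) - 1) = 1 := by
        have e4 : z u ^ ((p ^ a) ^ (M' * (n' - n)) - 1) * z u = 1 * z u := by
          rw [← pow_succ, Nat.sub_add_cancel (hpos _), one_mul, pow_mul]
          exact e2.symm
        exact mul_right_cancel₀ (hz0 u) e4
      have e5 : ℓ u ∣ (p ^ a) ^ (M' * (n' - n)) - 1 := hord.trans (orderOf_dvd_of_pow_eq_one e3)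
      have e6 : r u ∣ M' * (n' - n) := by
        by_contra hnd
        have hg : Nat.gcd (r u) (M' * (n' - n)) = 1 := (Nat.Prime.coprime_iff_not_dvd (hr u)).2 hnd
        have := Nat.dvd_gcd (h1 u) e5
        rw [Nat.pow_sub_one_gcd_pow_sub_one, hg, pow_one] at this
        exact h2 u this
      have e7 : r u ∣ n' - n := hcop.dvd_of_dvd_mul_left e6
      have := Nat.le_of_dvd (by omega) e7
      omega
    intro n n' hnn
    by_contra hne
    rcases lt_or_gt_of_ne (fun h => hne (Fin.ext h) : (n : ℕ) ≠ n') with h | h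
    · exact key n n' h n'.2 hnn
    · exact key n' n h n.2 hnn.symm
  -- the polynomial
  let b : S → Ω := fun σ => c σ * ∏ v ∈ Finset.univ.erase u, z v ^ e σ v
  have hb : ∀ σ, c σ * ∏ v, z v ^ e σ v = b σ * z u ^ e σ u := by
    intro σ
    simp only [b]
    rw [← Finset.mul_prod_erase Finset.univ _ (Finset.mem_univ u)]
    ring
  have hbF : ∀ σ ∈ T, ∀ n : ℕ, b σ ^ (((p ^ a) ^ M') ^ n) = b σ := by
    intro σ hσ n
    refine pow_iter3 ?_ n
    simp only [b]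
    rw [mul_pow, pow_iter3 (hc σ hσ).1, ← Finset.prod_pow]
    congr 1
    refine Finset.prod_congr rfl fun v hv => ?_
    rw [← pow_mul, mul_comm, pow_mul, hzF v (Finset.mem_erase.1 hv).1]
  have hb0 : ∀ σ ∈ T, b σ ≠ 0 := fun σ hσ =>
    mul_ne_zero (hc σ hσ).2 (Finset.prod_ne_zero_iff.2 fun v _ => pow_ne_zero _ (hz0 v))
  let P : Polynomial Ω := ∑ σ ∈ T, Polynomial.C (b σ) * Polynomial.X ^ e σ u
  have hPeval : ∀ y, P.eval y = ∑ σ ∈ T, b σ * y ^ e σ u := by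
    intro y
    simp only [P]
    rw [Polynomial.eval_finsetSum]
    exact Finset.sum_congr rfl fun σ _ => by simp
  have hP0 : P.eval (z u) = 0 := by
    rw [hPeval, ← h0]
    exact Finset.sum_congr rfl fun σ _ => (hb σ).symm
  have hdeg : P.natDegree ≤ D := by
    refine Polynomial.natDegree_sum_le_of_forall_le _ _ fun σ hσ => ?_
    exact (Polynomial.natDegree_C_mul_X_pow_le _ _).trans (he σ hσ u)
  have hPz : P = 0 := by
    refine Polynomial.eq_zero_of_natDegree_lt_card_of_eval_eq_zero P hinjz (fun n => ?_) ?_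
    · have h4 := congrArg (iterateFrobenius Ω p (a * M' * n)) hP0
      rw [hPeval, map_sum, map_zero] at h4
      rw [hPeval, ← h4]
      refine Finset.sum_congr rfl fun σ hσ => ?_
      rw [hFr, mul_pow, hbF σ hσ, ← pow_mul (z u), ← pow_mul (z u), mul_comm (e σ u)]
    · rw [Fintype.card_fin]
      exact lt_of_le_of_lt hdeg (hD u)
  obtain ⟨σ₀, hσ₀⟩ := hT
  have h5 : P.coeff (e σ₀ u) = b σ₀ := by
    simp only [P]
    rw [Polynomial.finsetSum_coeff, Finset.sum_eq_single_of_mem σ₀ hσ₀]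
    · simp
    · intro τ hτ hne
      rw [Polynomial.coeff_C_mul_X_pow, if_neg]
      intro h6
      exact hne (hinj' u τ hτ σ₀ hσ₀ h6.symm)
  rw [hPz, Polynomial.coeff_zero] at h5
  exact hb0 σ₀ hσ₀ h5.symm

end ALK
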