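import Pool.Agent.Work.MP_05d08f_al.AX.P1
import Pool.Agent.Work.MP_05d08f_al.AX.P2
import Pool.Agent.Work.MP_05d08f_al.AX.P3

set_option autoImplicit false

/-!
# P4: roots of unity in characteristic `p` (size M, assembly of P1, P2, P3)

Let `Q = p ^ a ≥ 2`. Take `r_u, ℓ_u` from `primes_seq Q (max X D) k` (so `X < r_u < ℓ_u`, `D < r_u`). `ℓ_u ≠ p` as
`ℓ_u ∣ Q ^ r_u - 1`, which is `≡ -1` modulo `p`. Let `κ_u = padicValNat (ℓ u) (Q ^ r_u - 1) ≥ 1` and `M = ∏_u r_u`. Then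
`ℓ_u ^ κ_u ∣ Q ^ r_u - 1 ∣ Q ^ M - 1`, and `ℓ_u ^ (κ_u + 1) ∤ Q ^ M - 1`: `Q ^ M - 1 = y ^ M' - 1` with `y = Q ^ r_u`,
`M' = M / r_u = ∏_{v ≠ u} r_v`; `padicValNat.pow_sub_pow` (`ℓ_u` is odd since `ℓ_u > r_u ≥ 2`, `ℓ_u ∣ y - 1`, `ℓ_u ∤ y`, `M' ≠ 0`) gives
`v (y ^ M' - 1) = v (y - 1) + v (M') = κ_u + 0`, because `ℓ_u ∤ M'` (`M'` is a product of primes `r_v ≠ ℓ_u`).
`Ω` is algebraically closed and `ℓ_u ≠ p`, so there is a primitive root `ζ_u` of order `ℓ_u ^ (κ_u + 1)`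
(`HasEnoughRootsOfUnity.exists_primitiveRoot` with `NeZero ((ℓ_u ^ (κ_u + 1) : ℕ) : Ω)`, or
`IsSepClosed`/`IsAlgClosed` instances, see AS/N06). The second property is `sepa`. For the third
put `z_u = ζ_u ^ (ℓ_u * s_u)`: `z_u ^ (ℓ_u ^ κ_u) = ζ_u ^ (ℓ_u ^ (κ_u + 1) * s_u) = 1`, and apply `smallz`.
-/

namespace ALK

theorem tower_p {Ω : Type*} [Field Ω] [IsAlgClosed Ω] (p : ℕ) [Fact p.Prime] [CharP Ω p]
    (a X D k : ℕ) (ha : 1 ≤ a) :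
    ∃ (ℓ κ : Fin k → ℕ) (ζ : Fin k → Ω),
      (∀ u, (ℓ u).Prime ∧ X < ℓ u ∧ ℓ u ≠ p ∧ IsPrimitiveRoot (ζ u) (ℓ u ^ (κ u + 1))) ∧
      (∀ (S : Type) (T : Finset S) (c : S → Ω) (e : S → Fin k → ℕ),
        (∀ σ ∈ T, c σ ^ (p ^ a) = c σ) → ∑ σ ∈ T, c σ * ∏ u, ζ u ^ e σ u = 0 →
        ∀ r : Fin k → ℕ,
          ∑ σ ∈ T.filter (fun σ => ∀ u, e σ u % ℓ u = r u), c σ * ∏ u, ζ u ^ e σ u = 0) ∧
      (∀ (S : Type) (T : Finset S) (c : S → Ω) (e : S → Fin k → ℕ) (s : Fin k → ℕ), T.Nonempty →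
        (∀ σ ∈ T, c σ ^ (p ^ a) = c σ ∧ c σ ≠ 0) → (∀ σ ∈ T, ∀ u, e σ u ≤ D) →
        (∀ u, ∀ σ ∈ T, ∀ τ ∈ T, e σ u = e τ u → σ = τ) → (∃ u, ζ u ^ (ℓ u * s u) ≠ 1) →
        ∑ σ ∈ T, c σ * ∏ u, (ζ u ^ (ℓ u * s u)) ^ e σ u ≠ 0) := by
  classical
  have hp : p.Prime := Fact.out
  have hQ : 2 ≤ p ^ a := by
    calc 2 ≤ p := hp.two_le
      _ = p ^ 1 := (pow_one p).symm
      _ ≤ p ^ a := Nat.pow_le_pow_right hp.pos ha
  obtain ⟨r, ℓ, hrl, hne, hir, hil⟩ := primes_seq (p ^ a) (max X D) k hQ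
  have hX : ∀ u, X < r u := fun u => lt_of_le_of_lt (le_max_left X D) (hrl u).2.2.1
  have hD : ∀ u, D < r u := fun u => lt_of_le_of_lt (le_max_right X D) (hrl u).2.2.1
  have hr : ∀ u, (r u).Prime := fun u => (hrl u).1
  have hℓ : ∀ u, (ℓ u).Prime := fun u => (hrl u).2.1
  have hrℓ : ∀ u, r u < ℓ u := fun u => (hrl u).2.2.2.1
  have hd : ∀ u, ℓ u ∣ (p ^ a) ^ r u - 1 := fun u => (hrl u).2.2.2.2.1
  have hnd : ∀ u, ¬ ℓ u ∣ p ^ a - 1 := fun u => (hrl u).2.2.2.2.2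
  have hone : ∀ n : ℕ, n ≠ 0 → 1 < (p ^ a) ^ n := fun n hn => Nat.one_lt_pow hn (by omega)
  have hy : ∀ u, ¬ ℓ u ∣ (p ^ a) ^ r u := by
    intro u h
    have h1 := hone (r u) (hr u).ne_zero
    have h2 : ℓ u ∣ 1 := by
      have := Nat.dvd_sub h (hd u)
      rwa [Nat.sub_sub_self h1.le] at this
    exact (hℓ u).one_lt.ne' (Nat.dvd_one.1 h2)
  have hℓp : ∀ u, ℓ u ≠ p := by
    intro u h
    apply hy u
    rw [h, ← pow_mul]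
    exact dvd_pow_self p (Nat.mul_ne_zero (by omega) (hr u).ne_zero)
  let κ : Fin k → ℕ := fun u => padicValNat (ℓ u) ((p ^ a) ^ r u - 1)
  have hκ : ∀ u, 1 ≤ κ u := by
    intro u
    have : Fact (ℓ u).Prime := ⟨hℓ u⟩
    exact one_le_padicValNat_of_dvd (by have := hone (r u) (hr u).ne_zero; omega) (hd u)
  have h3 : ∀ u, ℓ u ^ κ u ∣ (p ^ a) ^ r u - 1 := fun u => pow_padicValNat_dvd
  set M : ℕ := ∏ v, r v with hM
  have hM1 : 1 ≤ M := Nat.one_le_iff_ne_zero.2 (Finset.prod_ne_zero_iff.2 fun v _ => (hr v).ne_zero)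
  have hMM : ∀ u, M = r u * ∏ v ∈ Finset.univ.erase u, r v := fun u =>
    (Finset.mul_prod_erase Finset.univ r (Finset.mem_univ u)).symm
  have hpowM : ∀ u, (p ^ a) ^ M - 1 =
      ((p ^ a) ^ r u) ^ (∏ v ∈ Finset.univ.erase u, r v) - 1 ^ (∏ v ∈ Finset.univ.erase u, r v) := by
    intro u
    rw [one_pow, ← pow_mul (p ^ a) (r u), ← hMM u]
  have h1M : ∀ u, ℓ u ^ κ u ∣ (p ^ a) ^ M - 1 := by
    intro u
    rw [hpowM u]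
    exact (h3 u).trans (Nat.sub_dvd_pow_sub_pow _ _ _)
  have h2M : ∀ u, ¬ ℓ u ^ (κ u + 1) ∣ (p ^ a) ^ M - 1 := by
    intro u
    have : Fact (ℓ u).Prime := ⟨hℓ u⟩
    have hodd : Odd (ℓ u) := (hℓ u).odd_of_ne_two (by have := hrℓ u; have := (hr u).two_le; omega)
    have hM0 : (∏ v ∈ Finset.univ.erase u, r v) ≠ 0 :=
      Finset.prod_ne_zero_iff.2 fun v _ => (hr v).ne_zero
    have hval := padicValNat.pow_sub_pow (p := ℓ u) hodd (hone (r u) (hr u).ne_zero) (hd u) (hy u) hM0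
    have hnM : padicValNat (ℓ u) (∏ v ∈ Finset.univ.erase u, r v) = 0 := by
      apply padicValNat.eq_zero_of_not_dvd
      intro h
      obtain ⟨v, _, hv⟩ := (Prime.dvd_finsetProd_iff (hℓ u).prime r).1 h
      exact hne v u ((Nat.prime_dvd_prime_iff_eq (hℓ u) (hr v)).1 hv).symm
    rw [hnM, add_zero, ← hpowM u] at hval
    have hpos : (p ^ a) ^ M - 1 ≠ 0 := by have := hone M (by omega); omega
    rw [padicValNat_dvd_iff_le hpos, hval]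
    simp [κ]
  have hζ : ∀ u, ∃ ζ : Ω, IsPrimitiveRoot ζ (ℓ u ^ (κ u + 1)) := by
    intro u
    have hne0 : ((ℓ u ^ (κ u + 1) : ℕ) : Ω) ≠ 0 := by
      intro h
      rw [CharP.cast_eq_zero_iff Ω p] at h
      exact hℓp u ((Nat.prime_dvd_prime_iff_eq hp (hℓ u)).1 (hp.dvd_of_dvd_pow h)).symm
    have : NeZero ((ℓ u ^ (κ u + 1) : ℕ) : Ω) := ⟨hne0⟩
    exact HasEnoughRootsOfUnity.exists_primitiveRoot Ω (ℓ u ^ (κ u + 1))
  choose ζ hζ using hζ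
  refine ⟨ℓ, κ, ζ, fun u => ⟨hℓ u, lt_trans (hX u) (hrℓ u), hℓp u, hζ u⟩, ?_, ?_⟩
  · intro S T c e hc h0 r'
    exact sepa p a M k ha hM1 ℓ κ ζ hℓ hil hκ h1M h2M hζ T c e hc h0 r'
  · intro S T c e s hT hc he hinj hne'
    refine smallz p a D k ha r ℓ κ (fun u => ζ u ^ (ℓ u * s u)) hr hℓ hir hD hd hnd h3 ?_ hne' T hT
      c e hc he hinj
    intro u
    show (ζ u ^ (ℓ u * s u)) ^ (ℓ u ^ κ u) = 1
    rw [← pow_mul]
    have : ℓ u * s u * ℓ u ^ κ u = ℓ u ^ (κ u + 1) * s u := by ring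
    rw [this, pow_mul, (hζ u).pow_eq_one, one_pow]

end ALK
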