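import Pool.Agent.Work.MP_05d08f_al.AS.N04
import Pool.Agent.Work.MP_05d08f_al.AS.N05

set_option autoImplicit false

/-!
# P5: the combinatorial core (from `AS/N08.lean`), modulo primes

If every word of the support has a partner with the same exponents modulo all the primes then `t = 0`
modulo all the primes, and two words have the same exponents iff they agree off the letter `i`.
-/

namespace ALK

theorem ax_alp_sub {ι R : Type*} [Fintype ι] [DecidableEq ι] [CommRing R] (i : ι)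
    (v v' : ι → ι → ℤ) (h ω : ι → R) :
    alp i (v - v') h ω = alp i v h ω - alp i v' h ω := by
  unfold alp
  rw [← Finset.sum_sub_distrib]
  refine Finset.sum_congr rfl fun j _ => ?_
  rw [← Finset.sum_sub_distrib]
  refine Finset.sum_congr rfl fun a _ => ?_
  simp only [Pi.sub_apply, Int.cast_sub]
  ring

theorem ax_bet_sub {ι R : Type*} [Fintype ι] [DecidableEq ι] [CommRing R] (i : ι)
    (v v' : ι → ι → ℤ) (h : ι → R) : bet i (v - v') h = bet i v h - bet i v' h := by
  unfold bet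
  rw [← Finset.sum_sub_distrib]
  refine Finset.sum_congr rfl fun a _ => ?_
  simp only [Pi.sub_apply, Int.cast_sub]
  ring

theorem ax_alp_zero_of_off {ι R : Type*} [Fintype ι] [DecidableEq ι] [CommRing R] (i : ι)
    (v : ι → ι → ℤ) (h ω : ι → R) (hi : h i = 0) (hv : ¬ NzO i v) : alp i v h ω = 0 := by
  unfold alp
  refine Finset.sum_eq_zero fun j hj => Finset.sum_eq_zero fun a _ => ?_
  by_cases ha : a = i
  · rw [ha, hi]; ring
  · have : v a j = 0 := by
      by_contra hne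
      exact hv ⟨a, j, ha, (Finset.mem_erase.1 hj).1, hne⟩
    rw [this]; push_cast; ring

theorem ax_bet_zero_of {ι R : Type*} [Fintype ι] [DecidableEq ι] [CommRing R] (i : ι)
    (v : ι → ι → ℤ) (h : ι → R) (hv : ¬ NzI i v) : bet i v h = 0 := by
  unfold bet
  refine Finset.sum_eq_zero fun a _ => ?_
  have : v a i = 0 := by
    by_contra hne
    exact hv ⟨a, hne⟩
  rw [this]; push_cast; ring

theorem ax_alp_neg {ι R : Type*} [Fintype ι] [DecidableEq ι] [CommRing R] (i : ι)
    (v : ι → ι → ℤ) (h ω : ι → R) : alp i (-v) h ω = - alp i v h ω := by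
  have := ax_alp_sub i 0 v h ω
  rw [zero_sub] at this
  rw [this]
  have h0 : alp i (0 : ι → ι → ℤ) h ω = 0 := by
    unfold alp
    simp
  rw [h0, zero_sub]

theorem ax_alp_apply {ι : Type*} [Fintype ι] [DecidableEq ι] {k : ℕ} (p : Fin k → ℕ) (i : ι)
    (v : ι → ι → ℤ) (H W : Fin k → ι → ℤ) (u : Fin k) :
    (alp i v (fun a u => ((H u a : ℤ) : ZMod (p u))) (fun a u => ((W u a : ℤ) : ZMod (p u)))) u =
      ((alp i v (H u) (W u) : ℤ) : ZMod (p u)) := by
  unfold alp
  rw [Finset.sum_apply, Int.cast_sum]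
  refine Finset.sum_congr rfl fun j _ => ?_
  rw [Finset.sum_apply, Int.cast_sum]
  refine Finset.sum_congr rfl fun a _ => ?_
  simp only [Pi.mul_apply, Pi.intCast_apply, Int.cast_mul, Int.cast_id]

theorem ax_bet_apply {ι : Type*} [Fintype ι] [DecidableEq ι] {k : ℕ} (p : Fin k → ℕ) (i : ι)
    (v : ι → ι → ℤ) (H : Fin k → ι → ℤ) (u : Fin k) :
    (bet i v (fun a u => ((H u a : ℤ) : ZMod (p u)))) u =
      ((bet i v (H u) : ℤ) : ZMod (p u)) := by
  unfold bet
  rw [Finset.sum_apply, Int.cast_sum]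
  refine Finset.sum_congr rfl fun a _ => ?_
  simp only [Pi.mul_apply, Pi.intCast_apply, Int.cast_mul, Int.cast_id]

theorem ax_cast_ne {p X : ℕ} (hp : X < p) {z : ℤ} (hz : z.natAbs ≤ X) (h0 : z ≠ 0) :
    ((z : ℤ) : ZMod p) ≠ 0 := by
  intro h
  rw [ZMod.intCast_zmod_eq_zero_iff_dvd] at h
  have h1 := Int.natAbs_dvd_natAbs.2 h
  rw [Int.natAbs_natCast] at h1
  have h2 := Nat.le_of_dvd (Int.natAbs_pos.2 h0) h1
  omega

theorem ax_bet_eq_sub {ι : Type*} [Fintype ι] [DecidableEq ι] (i : ι) (v : ι → ι → ℤ)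
    (hv : Dif v) (h : ι → ℤ) :
    bet i v h = ∑ a ∈ Finset.univ.filter (fun a => v a i = 1), h a -
      ∑ a ∈ Finset.univ.filter (fun a => v a i = -1), h a := by
  unfold bet
  rw [Finset.sum_filter, Finset.sum_filter, ← Finset.sum_sub_distrib]
  refine Finset.sum_congr rfl fun a _ => ?_
  rcases hv.ent a i with h0 | h0 | h0 <;> rw [h0] <;> simp

theorem core_part {S ι : Type*} [Fintype ι] [DecidableEq ι] (i : ι)
    (B : S → ι → ι → ℤ) (hB : ∀ σ, Tour (B σ)) (hinj : Function.Injective B)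
    (T : Finset S) (hTne : T.Nonempty) {k : ℕ} (p : Fin (k + 1) → ℕ)
    (hp : ∀ u, (p u).Prime) (vv : Fin k → ι → ι → ℤ)
    (hvv : ∀ σ τ, Harm i B T (B σ - B τ) → ∃ u, vv u = B σ - B τ)
    (H W : Fin (k + 1) → ι → ℤ) (hHi : ∀ u, H u i = 0)
    (h1 : ∀ u : Fin k, bet i (vv u) (H u.castSucc) = 0)
    (h2 : ∀ u : Fin k, ((alp i (vv u) (H u.castSucc) (W u.castSucc) : ℤ) :
      ZMod (p u.castSucc)) ≠ 0)
    (h3 : ∀ u : Fin k, ∀ σ ∈ T, ∀ τ ∈ T, (∃ a, B σ a i ≠ B τ a i) →
      (∀ a j, a ≠ i → j ≠ i → B σ a j = B τ a j) →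
      ((bet i (B σ - B τ) (H u.castSucc) : ℤ) : ZMod (p u.castSucc)) ≠ 0)
    (h4 : ∀ v : ι → ι → ℤ, Dif v → NzI i v →
      ((bet i v (H (Fin.last k)) : ℤ) : ZMod (p (Fin.last k))) ≠ 0)
    (h5 : ∀ σ τ, (∃ a j, a ≠ i ∧ j ≠ i ∧ B σ a j ≠ B τ a j) →
      ((alp i (B σ - B τ) (H (Fin.last k)) (W (Fin.last k)) : ℤ) : ZMod (p (Fin.last k))) ≠ 0)
    (h6 : ∀ σ τ σ' τ', NzI i (B σ - B τ) → NzI i (B σ' - B τ') → NzO i (B σ - B τ) →
      B σ' - B τ' ≠ B σ - B τ → B σ' - B τ' ≠ -(B σ - B τ) →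
      ((alp i (B σ - B τ) (H (Fin.last k)) (W (Fin.last k)) *
        bet i (B σ' - B τ') (H (Fin.last k)) -
        alp i (B σ' - B τ') (H (Fin.last k)) (W (Fin.last k)) *
        bet i (B σ - B τ) (H (Fin.last k)) : ℤ) : ZMod (p (Fin.last k))) ≠ 0)
    (t : ∀ u, ZMod (p u)) (E : S → ∀ u, ZMod (p u))
    (hE : ∀ σ u, E σ u = ((alp i (B σ) (H u) (W u) : ℤ) : ZMod (p u)) +
      t u * ((bet i (B σ) (H u) : ℤ) : ZMod (p u)))
    (hpart : ∀ σ ∈ T, ∃ τ ∈ T, τ ≠ σ ∧ ∀ u, E τ u = E σ u) :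
    t = 0 ∧ ∀ σ τ, (∀ u, E τ u = E σ u) ↔ ∀ a j, a ≠ i → j ≠ i → B σ a j = B τ a j := by
  classical
  have : ∀ u, Fact (p u).Prime := fun u => ⟨hp u⟩
  -- difference equation
  have hdiff : ∀ σ τ, (∀ u, E τ u = E σ u) → ∀ u,
      ((alp i (B σ - B τ) (H u) (W u) : ℤ) : ZMod (p u)) +
        t u * ((bet i (B σ - B τ) (H u) : ℤ) : ZMod (p u)) = 0 := by
    intro σ τ h u
    have := h u
    rw [hE, hE] at this
    rw [ax_alp_sub, ax_bet_sub]
    push_cast
    linear_combination -this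
  by_cases htl : t (Fin.last k) = 0
  · -- case B
    have hoff : ∀ σ τ, (∀ u, E τ u = E σ u) → ∀ a j, a ≠ i → j ≠ i → B σ a j = B τ a j := by
      intro σ τ h a j ha hj
      by_contra hne
      have h' := hdiff σ τ h (Fin.last k)
      rw [htl, zero_mul, add_zero] at h'
      exact h5 σ τ ⟨a, j, ha, hj, hne⟩ h'
    by_cases ht : t = 0
    · -- t = 0
      refine ⟨ht, fun σ τ => ⟨hoff σ τ, fun hs u => ?_⟩⟩
      rw [hE, hE, ht]
      simp only [Pi.zero_apply, zero_mul, add_zero]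
      have : alp i (B σ - B τ) (H u) (W u) = 0 := by
        refine ax_alp_zero_of_off i _ _ _ (hHi u) ?_
        rintro ⟨a, j, ha, hj, hne⟩
        apply hne
        rw [Pi.sub_apply, Pi.sub_apply, hs a j ha hj, sub_self]
      rw [ax_alp_sub, sub_eq_zero] at this
      rw [this]
    · -- some coordinate of t is nonzero
      exfalso
      obtain ⟨u, hu⟩ : ∃ u, t u ≠ 0 := by
        by_contra hno
        push Not at hno
        exact ht (funext hno)
      obtain ⟨u', rfl⟩ : ∃ u' : Fin k, u'.castSucc = u := by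
        refine ⟨u.castPred ?_, Fin.castSucc_castPred _ _⟩
        rintro rfl
        exact hu htl
      obtain ⟨σ, hσ⟩ := hTne
      obtain ⟨τ, hτ, hne, he⟩ := hpart σ hσ
      have hoff' := hoff σ τ he
      have hd := hdiff σ τ he u'.castSucc
      have ha0 : alp i (B σ - B τ) (H u'.castSucc) (W u'.castSucc) = 0 := by
        refine ax_alp_zero_of_off i _ _ _ (hHi _) ?_
        rintro ⟨a, j, ha, hj, hne⟩
        apply hne
        rw [Pi.sub_apply, Pi.sub_apply, hoff' a j ha hj, sub_self]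
      rw [ha0, Int.cast_zero, zero_add, mul_eq_zero] at hd
      rcases hd with hd | hd
      · exact hu hd
      · refine h3 u' σ hσ τ hτ ?_ hoff' hd
        by_contra hno
        push Not at hno
        apply hne
        apply hinj
        funext a j
        by_cases hj : j = i
        · rw [hj, hno a]
        · by_cases ha : a = i
          · rw [ha]
            have e1 := (hB σ).anti i j (Ne.symm hj)
            have e2 := (hB τ).anti i j (Ne.symm hj)
            have e3 := hno j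
            omega
          · exact (hoff' a j ha hj).symm
  · -- case A
    exfalso
    have hharm : ∀ σ ∈ T, ∀ τ ∈ T, τ ≠ σ → (∀ u, E τ u = E σ u) →
        NzI i (B σ - B τ) ∧ NzO i (B σ - B τ) := by
      intro σ hσ τ hτ hne he
      have hd := hdiff σ τ he (Fin.last k)
      have hdif : Dif (B σ - B τ) := (hB σ).dif (hB τ)
      have hI : NzI i (B σ - B τ) := by
        by_contra hno
        rw [ax_bet_zero_of i _ _ hno, Int.cast_zero, mul_zero, add_zero] at hd
        refine h5 σ τ ?_ hd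
        by_contra hno'
        push Not at hno'
        apply hne
        apply hinj
        have hcol : ∀ a, B σ a i = B τ a i := by
          intro a
          by_contra hna
          exact hno ⟨a, by rw [Pi.sub_apply, Pi.sub_apply]; exact sub_ne_zero.2 hna⟩
        funext a j
        by_cases hj : j = i
        · rw [hj, hcol a]
        · by_cases ha : a = i
          · rw [ha]
            have e1 := (hB σ).anti i j (Ne.symm hj)
            have e2 := (hB τ).anti i j (Ne.symm hj)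
            have e3 := hcol j
            omega
          · exact (hno' a j ha hj).symm
      refine ⟨hI, ?_⟩
      by_contra hno
      rw [ax_alp_zero_of_off i _ _ _ (hHi _) hno, Int.cast_zero, zero_add, mul_eq_zero] at hd
      rcases hd with hd | hd
      · exact htl hd
      · exact h4 _ hdif hI hd
    obtain ⟨σ₁, hσ₁⟩ := hTne
    obtain ⟨τ₁, hτ₁, hne₁, he₁⟩ := hpart σ₁ hσ₁
    obtain ⟨hI₁, hO₁⟩ := hharm σ₁ hσ₁ τ₁ hτ₁ hne₁ he₁
    have hv : Harm i B T (B σ₁ - B τ₁) := by
      refine ⟨(hB σ₁).dif (hB τ₁), hI₁, hO₁, ?_⟩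
      intro σ hσ
      obtain ⟨τ, hτ, hne, he⟩ := hpart σ hσ
      obtain ⟨hI, hO⟩ := hharm σ hσ τ hτ hne he
      refine ⟨τ, hτ, ?_⟩
      by_contra hno
      push Not at hno
      have hd := hdiff σ τ he (Fin.last k)
      have hd₁ := hdiff σ₁ τ₁ he₁ (Fin.last k)
      apply h6 σ₁ τ₁ σ τ hI₁ hI hO₁ hno.1 hno.2
      push_cast
      linear_combination ((bet i (B σ - B τ) (H (Fin.last k)) : ℤ) : ZMod (p (Fin.last k))) * hd₁ -
        ((bet i (B σ₁ - B τ₁) (H (Fin.last k)) : ℤ) : ZMod (p (Fin.last k))) * hd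
    obtain ⟨u, hu⟩ := hvv σ₁ τ₁ hv
    have hd := hdiff σ₁ τ₁ he₁ u.castSucc
    rw [← hu, h1 u, Int.cast_zero, mul_zero, add_zero] at hd
    exact h2 u hd

end ALK
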