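import Pool.Agent.Work.MP_05d08f_al.AX.P4
import Pool.Agent.Work.MP_05d08f_al.AX.P5

set_option autoImplicit false

/-!
# P6: the nonvanishing theorem in characteristic `p` (size L, helper89; compare `AS/N08.lean`)

`R(t) = ∑_σ c σ ∏_u ζ_u ^ (e_σ(t) u)` with `e_σ(t) = alp i (B σ) h ω + t * bet i (B σ) h` in the ring
`G = ∏_u ZMod (ℓ_u ^ (κ_u + 1))`. CLAIM: the data can be chosen such that `R(t) ≠ 0` for every `t ≠ 0`, and
also for `t = 0` if some sum of the `c σ` over a class of words which agree off `i` is nonzero.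
-/

namespace ALK

private theorem ax_pow_fix {Ω : Type*} [Field Ω] (p a b : ℕ) (x : Ω) (h : x ^ (p ^ a) = x) :
    x ^ (p ^ (a * b)) = x := by
  induction b with
  | zero => simp
  | succ b ih =>
    rw [Nat.mul_succ, pow_add, pow_mul, ih, h]

open Classical in
theorem nonvan_p {Ω : Type*} [Field Ω] [IsAlgClosed Ω] (p : ℕ) [Fact p.Prime] [CharP Ω p]
    {S ι : Type} [Fintype S] [Fintype ι] [DecidableEq ι] (i : ι) (B : S → ι → ι → ℤ)
    (hB : ∀ σ, Tour (B σ)) (hinj : Function.Injective B) (c : S → Ω) (hc : c ≠ 0)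
    (hfin : ∀ σ, ∃ a, 1 ≤ a ∧ c σ ^ (p ^ a) = c σ) (X : ℕ) :
    ∃ (k : ℕ) (ℓ κ : Fin k → ℕ) (ζ : Fin k → Ω) (h ω : ι → ∀ u, ZMod (ℓ u ^ (κ u + 1))),
      (∀ u, (ℓ u).Prime ∧ X < ℓ u ∧ ℓ u ≠ p ∧ IsPrimitiveRoot (ζ u) (ℓ u ^ (κ u + 1))) ∧ h i = 0 ∧
      (∀ A A' : Finset ι, i ∉ A → i ∉ A' → ∑ j ∈ A, h j = ∑ j ∈ A', h j → A = A') ∧
      ∀ t : ∀ u, ZMod (ℓ u ^ (κ u + 1)),
        (t ≠ 0 ∨ ∃ σ₀, ∑ σ, (if ∀ a j, a ≠ i → j ≠ i → B σ a j = B σ₀ a j then c σ else 0) ≠ 0) →
        ∑ σ, c σ * ∏ u, ζ u ^ ((alp i (B σ) h ω + t * bet i (B σ) h) u).val ≠ 0 := by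
  -- support
  let T : Finset S := Finset.univ.filter fun σ => c σ ≠ 0
  have hT : ∀ σ, σ ∈ T ↔ c σ ≠ 0 := fun σ => by simp [T]
  have hTne : T.Nonempty := by
    by_contra hno
    rw [Finset.not_nonempty_iff_eq_empty] at hno
    apply hc
    funext σ
    by_contra hne
    have := (hT σ).2 hne
    rw [hno] at this
    exact absurd this (Finset.notMem_empty _)
  -- all differences and the harmful ones
  let V : Finset (ι → ι → ℤ) := Finset.univ.image fun x : S × S => B x.1 - B x.2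
  have hV : ∀ σ τ, B σ - B τ ∈ V := fun σ τ => Finset.mem_image.2 ⟨(σ, τ), Finset.mem_univ _, rfl⟩
  let VH : Finset (ι → ι → ℤ) := V.filter fun v => Harm i B T v
  let k := VH.card
  let en : Fin k ≃ VH := VH.equivFin.symm
  let vv : Fin k → ι → ι → ℤ := fun u => (en u : ι → ι → ℤ)
  have hvH : ∀ u, Harm i B T (vv u) := fun u => (Finset.mem_filter.1 (en u).2).2
  have hvV : ∀ u, vv u ∈ V := fun u => (Finset.mem_filter.1 (en u).2).1
  choose hh ww d1 d2 d3 d4 using fun u => int_harm i B hB T (vv u) (hvH u)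
  obtain ⟨hl, wl, l1, l2, l3, l4⟩ := int_last i B hB
  let H : Fin (k + 1) → ι → ℤ := Fin.snoc (α := fun _ => ι → ℤ) hh hl
  let W : Fin (k + 1) → ι → ℤ := Fin.snoc (α := fun _ => ι → ℤ) ww wl
  have Hc : ∀ u : Fin k, H u.castSucc = hh u := fun u => Fin.snoc_castSucc (α := fun _ => ι → ℤ) _ _ u
  have Wc : ∀ u : Fin k, W u.castSucc = ww u := fun u => Fin.snoc_castSucc (α := fun _ => ι → ℤ) _ _ u
  have Hl : H (Fin.last k) = hl := Fin.snoc_last (α := fun _ => ι → ℤ) _ _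
  have Wl : W (Fin.last k) = wl := Fin.snoc_last (α := fun _ => ι → ℤ) _ _
  have hHi : ∀ u, H u i = 0 := by
    intro u
    refine Fin.lastCases ?_ (fun u => ?_) u
    · rw [Hl]; exact l1
    · rw [Hc]; exact d1 u
  -- the bound
  let Z0 : ℕ := ∑ σ, ∑ u, (bet i (B σ) (H u)).natAbs
  let Z1 : ℕ := ∑ v ∈ V, ∑ u, (alp i v (H u) (W u)).natAbs
  let Z2 : ℕ := ∑ v ∈ V, ∑ u, (bet i v (H u)).natAbs
  let Z3 : ℕ := ∑ v ∈ V, ∑ v' ∈ V, (alp i v hl wl * bet i v' hl - alp i v' hl wl * bet i v hl).natAbs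
  let Z4 : ℕ := ∑ A : Finset ι, ∑ A' : Finset ι, (∑ j ∈ A, hl j - ∑ j ∈ A', hl j).natAbs
  let X' : ℕ := X + Z1 + Z2 + Z3 + Z4
  have b1 : ∀ v ∈ V, ∀ u, (alp i v (H u) (W u)).natAbs ≤ X' := by
    intro v hv u
    have e1 : (alp i v (H u) (W u)).natAbs ≤ ∑ u, (alp i v (H u) (W u)).natAbs :=
      Finset.single_le_sum (f := fun u => (alp i v (H u) (W u)).natAbs) (fun _ _ => Nat.zero_le _)
        (Finset.mem_univ u)
    have e2 : ∑ u, (alp i v (H u) (W u)).natAbs ≤ Z1 :=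
      Finset.single_le_sum (f := fun v => ∑ u, (alp i v (H u) (W u)).natAbs)
        (fun _ _ => Nat.zero_le _) hv
    omega
  have b2 : ∀ v ∈ V, ∀ u, (bet i v (H u)).natAbs ≤ X' := by
    intro v hv u
    have e1 : (bet i v (H u)).natAbs ≤ ∑ u, (bet i v (H u)).natAbs :=
      Finset.single_le_sum (f := fun u => (bet i v (H u)).natAbs) (fun _ _ => Nat.zero_le _)
        (Finset.mem_univ u)
    have e2 : ∑ u, (bet i v (H u)).natAbs ≤ Z2 :=
      Finset.single_le_sum (f := fun v => ∑ u, (bet i v (H u)).natAbs)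
        (fun _ _ => Nat.zero_le _) hv
    omega
  have b3 : ∀ v ∈ V, ∀ v' ∈ V,
      (alp i v hl wl * bet i v' hl - alp i v' hl wl * bet i v hl).natAbs ≤ X' := by
    intro v hv v' hv'
    have e1 : (alp i v hl wl * bet i v' hl - alp i v' hl wl * bet i v hl).natAbs ≤
        ∑ v' ∈ V, (alp i v hl wl * bet i v' hl - alp i v' hl wl * bet i v hl).natAbs :=
      Finset.single_le_sum
        (f := fun v' => (alp i v hl wl * bet i v' hl - alp i v' hl wl * bet i v hl).natAbs)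
        (fun _ _ => Nat.zero_le _) hv'
    have e2 : ∑ v' ∈ V, (alp i v hl wl * bet i v' hl - alp i v' hl wl * bet i v hl).natAbs ≤ Z3 :=
      Finset.single_le_sum (f := fun v => ∑ v' ∈ V,
        (alp i v hl wl * bet i v' hl - alp i v' hl wl * bet i v hl).natAbs)
        (fun _ _ => Nat.zero_le _) hv
    omega
  have b4 : ∀ A A' : Finset ι, (∑ j ∈ A, hl j - ∑ j ∈ A', hl j).natAbs ≤ X' := by
    intro A A'
    have e1 : (∑ j ∈ A, hl j - ∑ j ∈ A', hl j).natAbs ≤
        ∑ A' : Finset ι, (∑ j ∈ A, hl j - ∑ j ∈ A', hl j).natAbs :=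
      Finset.single_le_sum (f := fun A' => (∑ j ∈ A, hl j - ∑ j ∈ A', hl j).natAbs)
        (fun _ _ => Nat.zero_le _) (Finset.mem_univ A')
    have e2 : ∑ A' : Finset ι, (∑ j ∈ A, hl j - ∑ j ∈ A', hl j).natAbs ≤ Z4 :=
      Finset.single_le_sum (f := fun A => ∑ A' : Finset ι,
        (∑ j ∈ A, hl j - ∑ j ∈ A', hl j).natAbs)
        (fun _ _ => Nat.zero_le _) (Finset.mem_univ A)
    omega
  have b0 : ∀ σ u, (bet i (B σ) (H u)).natAbs ≤ Z0 := by
    intro σ u
    have e1 : (bet i (B σ) (H u)).natAbs ≤ ∑ u, (bet i (B σ) (H u)).natAbs :=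
      Finset.single_le_sum (f := fun u => (bet i (B σ) (H u)).natAbs) (fun _ _ => Nat.zero_le _)
        (Finset.mem_univ u)
    have e2 : ∑ u, (bet i (B σ) (H u)).natAbs ≤ Z0 :=
      Finset.single_le_sum (f := fun σ => ∑ u, (bet i (B σ) (H u)).natAbs)
        (fun _ _ => Nat.zero_le _) (Finset.mem_univ σ)
    omega
  have hbetl : ∀ v : ι → ι → ℤ, Dif v → NzI i v → bet i v hl ≠ 0 := by
    intro v hv hI
    rw [ax_bet_eq_sub i v hv]
    refine sub_ne_zero.2 (l2 _ _ ?_ ?_ ?_)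
    · simp [hv.diag]
    · simp [hv.diag]
    · intro heq
      obtain ⟨a, ha⟩ := hI
      have h1 := Finset.ext_iff.1 heq a
      simp only [Finset.mem_filter, Finset.mem_univ, true_and] at h1
      rcases hv.ent a i with h0 | h0 | h0
      · exact ha h0
      · rw [h0] at h1
        simp at h1
      · rw [h0] at h1
        simp at h1
  have hbetl' : ∀ v : ι → ι → ℤ, Dif v → NzI i v → (bet i v hl).natAbs ≤ X' := by
    intro v hv hI
    rw [ax_bet_eq_sub i v hv]
    exact b4 _ _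
  -- a common power of the Frobenius fixes the coefficients
  choose aa haa hca using hfin
  let a : ℕ := ∏ σ, aa σ
  have ha : 1 ≤ a := Nat.one_le_iff_ne_zero.2 (Finset.prod_ne_zero_iff.2 fun σ _ => by
    have := haa σ
    omega)
  have hca' : ∀ σ, c σ ^ (p ^ a) = c σ := by
    intro σ
    obtain ⟨b, hb⟩ : aa σ ∣ a := Finset.dvd_prod_of_mem _ (Finset.mem_univ σ)
    rw [hb]
    exact ax_pow_fix p _ b _ (hca σ)
  obtain ⟨ℓ, κ, ζ, hℓ, T1, T2⟩ := tower_p (Ω := Ω) p a X' (2 * Z0) (k + 1) ha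
  have hXℓ : ∀ u, X' < ℓ u := fun u => (hℓ u).2.1
  have hℓN : ∀ u, ℓ u ≤ ℓ u ^ (κ u + 1) := fun u => Nat.le_self_pow (by omega) _
  have hXN : ∀ u, X' < ℓ u ^ (κ u + 1) := fun u => lt_of_lt_of_le (hXℓ u) (hℓN u)
  have hζ : ∀ u, IsPrimitiveRoot (ζ u) (ℓ u ^ (κ u + 1)) := fun u => (hℓ u).2.2.2
  have hNZ : ∀ u, NeZero (ℓ u ^ (κ u + 1)) := fun u => ⟨pow_ne_zero _ (hℓ u).1.ne_zero⟩
  have hζ0 : ∀ u, ζ u ≠ 0 := fun u => (hζ u).ne_zero (hNZ u).out
  refine ⟨k + 1, ℓ, κ, ζ, fun a u => ((H u a : ℤ) : ZMod (ℓ u ^ (κ u + 1))),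
    fun a u => ((W u a : ℤ) : ZMod (ℓ u ^ (κ u + 1))),
    fun u => ⟨(hℓ u).1, lt_of_le_of_lt (by omega) (hXℓ u), (hℓ u).2.2.1, hζ u⟩, ?_, ?_, ?_⟩
  · funext u
    simp [hHi u]
  · intro A A' hA hA' hs
    by_contra hne
    have h1 := congrFun hs (Fin.last k)
    rw [Finset.sum_apply, Finset.sum_apply] at h1
    have h2 := ax_cast_ne (hXN (Fin.last k)) (b4 A A') (sub_ne_zero.2 (l2 A A' hA hA' hne))
    apply h2
    push_cast
    rw [sub_eq_zero]
    simp only [Hl] at h1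
    exact h1
  · intro t hcond hsum
    let e : S → Fin (k + 1) → ℕ := fun σ u =>
      ((alp i (B σ) (fun a u => ((H u a : ℤ) : ZMod (ℓ u ^ (κ u + 1))))
        (fun a u => ((W u a : ℤ) : ZMod (ℓ u ^ (κ u + 1)))) +
        t * bet i (B σ) (fun a u => ((H u a : ℤ) : ZMod (ℓ u ^ (κ u + 1))))) u).val
    have he' : ∀ σ u, ((e σ u : ℕ) : ZMod (ℓ u ^ (κ u + 1))) =
        ((alp i (B σ) (H u) (W u) : ℤ) : ZMod (ℓ u ^ (κ u + 1))) +
          t u * ((bet i (B σ) (H u) : ℤ) : ZMod (ℓ u ^ (κ u + 1))) := by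
      intro σ u
      simp only [e]
      rw [ZMod.natCast_zmod_val, Pi.add_apply, Pi.mul_apply, ax_alp_apply, ax_bet_apply]
    let tb : ∀ u, ZMod (ℓ u) := fun u => (((t u).val : ℕ) : ZMod (ℓ u))
    let E : S → ∀ u, ZMod (ℓ u) := fun σ u => ((alp i (B σ) (H u) (W u) : ℤ) : ZMod (ℓ u)) +
      tb u * ((bet i (B σ) (H u) : ℤ) : ZMod (ℓ u))
    have hf : ∀ u (x : ZMod (ℓ u ^ (κ u + 1))),
        ZMod.castHom (dvd_pow_self (ℓ u) (Nat.succ_ne_zero (κ u))) (ZMod (ℓ u)) x =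
          ((x.val : ℕ) : ZMod (ℓ u)) := by
      intro u x
      rw [ZMod.castHom_apply, ZMod.natCast_val]
    have heE : ∀ σ u, ((e σ u : ℕ) : ZMod (ℓ u)) = E σ u := by
      intro σ u
      have h1 := congrArg (ZMod.castHom (dvd_pow_self (ℓ u) (Nat.succ_ne_zero (κ u)))
        (ZMod (ℓ u))) (he' σ u)
      rw [map_natCast, map_add, map_mul, map_intCast, map_intCast, hf] at h1
      exact h1
    have hmod : ∀ σ τ u, e σ u % ℓ u = e τ u % ℓ u ↔ E σ u = E τ u := by
      intro σ τ u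
      rw [← heE, ← heE, ZMod.natCast_eq_natCast_iff']
    have hsumT : ∑ σ ∈ T, c σ * ∏ u, ζ u ^ e σ u = 0 := by
      rw [← hsum, ← Finset.sum_subset (Finset.subset_univ T)]
      intro σ _ hσ
      have : c σ = 0 := by
        by_contra hne
        exact hσ ((hT σ).2 hne)
      rw [this, zero_mul]
    have hcl : ∀ σ₁, ∑ σ ∈ T.filter (fun σ => ∀ u, E σ u = E σ₁ u), c σ * ∏ u, ζ u ^ e σ u = 0 := by
      intro σ₁
      have h1 := T1 S T c e (fun σ _ => hca' σ) hsumT (fun u => e σ₁ u % ℓ u)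
      simpa only [hmod] using h1
    have hz0 : ∀ σ, ∏ u, ζ u ^ e σ u ≠ 0 := fun σ =>
      Finset.prod_ne_zero_iff.2 fun u _ => pow_ne_zero _ (hζ0 u)
    have hpart : ∀ σ ∈ T, ∃ τ ∈ T, τ ≠ σ ∧ ∀ u, E τ u = E σ u := by
      intro σ hσ
      by_contra hno
      push Not at hno
      have hfil : T.filter (fun τ => ∀ u, E τ u = E σ u) = {σ} := by
        ext τ
        rw [Finset.mem_filter, Finset.mem_singleton]
        constructor
        · rintro ⟨hτ, hu⟩
          by_contra hne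
          obtain ⟨u, hu'⟩ := hno τ hτ hne
          exact hu' (hu u)
        · rintro rfl
          exact ⟨hσ, fun _ => rfl⟩
      have h1 := hcl σ
      rw [hfil, Finset.sum_singleton, mul_eq_zero] at h1
      rcases h1 with h1 | h1
      · exact (hT σ).1 hσ h1
      · exact hz0 σ h1
    obtain ⟨htb, hcls⟩ := core_part i B hB hinj T hTne ℓ (fun u => (hℓ u).1) vv (by
        intro σ τ h
        refine ⟨en.symm ⟨B σ - B τ, Finset.mem_filter.2 ⟨hV σ τ, h⟩⟩, ?_⟩
        simp only [vv, Equiv.apply_symm_apply]) H W hHi (by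
        intro u
        rw [Hc]; exact d2 u) (by
        intro u
        refine ax_cast_ne (hXℓ _) (b1 _ (hvV u) _) ?_
        rw [Hc, Wc]; exact d3 u) (by
        intro u σ hσ τ hτ h1 h2
        refine ax_cast_ne (hXℓ _) (b2 _ (hV σ τ) _) ?_
        rw [Hc, ax_bet_sub]
        exact sub_ne_zero.2 (d4 u σ hσ τ hτ h1 h2)) (by
        intro v hv hI
        rw [Hl]
        exact ax_cast_ne (hXℓ _) (hbetl' v hv hI) (hbetl v hv hI)) (by
        intro σ τ h1
        refine ax_cast_ne (hXℓ _) (b1 _ (hV σ τ) _) ?_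
        rw [Hl, Wl, ax_alp_sub]
        exact sub_ne_zero.2 (l3 σ τ h1)) (by
        intro σ τ σ' τ' h1 h2 h3 h4 h5
        rw [Hl, Wl]
        exact ax_cast_ne (hXℓ _) (b3 _ (hV σ τ) _ (hV σ' τ'))
          (sub_ne_zero.2 (l4 σ τ σ' τ' h1 h2 h3 h4 h5))) tb E (fun _ _ => rfl) hpart
    -- the exponents at `alp` are equal in a class
    have halp : ∀ σ τ, (∀ a j, a ≠ i → j ≠ i → B σ a j = B τ a j) → ∀ u,
        alp i (B σ) (H u) (W u) = alp i (B τ) (H u) (W u) := by
      intro σ τ hs u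
      have : alp i (B σ - B τ) (H u) (W u) = 0 := by
        refine ax_alp_zero_of_off i _ _ _ (hHi u) ?_
        rintro ⟨a, j, ha, hj, hne⟩
        apply hne
        rw [Pi.sub_apply, Pi.sub_apply, hs a j ha hj, sub_self]
      rw [ax_alp_sub, sub_eq_zero] at this
      exact this
    by_cases ht : t = 0
    · -- t = 0
      rcases hcond with h | ⟨σ₀, h⟩
      · exact h ht
      obtain ⟨σ₁, -, hσ₁⟩ := Finset.exists_ne_zero_of_sum_ne_zero h
      have hσ₁' : (∀ a j, a ≠ i → j ≠ i → B σ₁ a j = B σ₀ a j) ∧ c σ₁ ≠ 0 := by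
        by_cases hc : ∀ a j, a ≠ i → j ≠ i → B σ₁ a j = B σ₀ a j
        · rw [if_pos hc] at hσ₁
          exact ⟨hc, hσ₁⟩
        · rw [if_neg hc] at hσ₁
          exact absurd rfl hσ₁
      have h1 := hcl σ₁
      have h2 : ∑ σ ∈ T.filter (fun σ => ∀ u, E σ u = E σ₁ u), c σ * ∏ u, ζ u ^ e σ u =
          (∑ σ ∈ T.filter (fun σ => ∀ u, E σ u = E σ₁ u), c σ) * ∏ u, ζ u ^ e σ₁ u := by
        rw [Finset.sum_mul]
        refine Finset.sum_congr rfl fun σ hσ => ?_
        have hag := (hcls σ₁ σ).1 (Finset.mem_filter.1 hσ).2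
        congr 1
        refine Finset.prod_congr rfl fun u _ => ?_
        have h3 : e σ u = e σ₁ u := by
          have h4 : ((e σ u : ℕ) : ZMod (ℓ u ^ (κ u + 1))) = ((e σ₁ u : ℕ) : ZMod (ℓ u ^ (κ u + 1))) := by
            rw [he', he', ht, halp σ₁ σ hag u]
            simp
          rw [ZMod.natCast_eq_natCast_iff'] at h4
          rwa [Nat.mod_eq_of_lt (ZMod.val_lt _), Nat.mod_eq_of_lt (ZMod.val_lt _)] at h4
        rw [h3]
      rw [h2, mul_eq_zero] at h1
      have hcl0 : ∑ σ ∈ T.filter (fun σ => ∀ u, E σ u = E σ₁ u), c σ = 0 := by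
        rcases h1 with h1 | h1
        · exact h1
        · exact absurd h1 (hz0 σ₁)
      apply h
      refine Eq.trans ?_ hcl0
      rw [Finset.sum_filter, ← Finset.sum_subset (Finset.subset_univ T)]
      · refine Finset.sum_congr rfl fun σ hσ => ?_
        have hiff : (∀ a j, a ≠ i → j ≠ i → B σ a j = B σ₀ a j) ↔ ∀ u, E σ u = E σ₁ u := by
          rw [hcls σ₁ σ]
          constructor
          · intro hs a j ha hj
            rw [hs a j ha hj, hσ₁'.1 a j ha hj]
          · intro hs a j ha hj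
            rw [← hs a j ha hj, hσ₁'.1 a j ha hj]
        by_cases hc : ∀ a j, a ≠ i → j ≠ i → B σ a j = B σ₀ a j
        · rw [if_pos hc, if_pos (hiff.1 hc)]
        · rw [if_neg hc, if_neg fun h' => hc (hiff.2 h')]
      · intro σ _ hσ
        have : c σ = 0 := by
          by_contra hne
          exact hσ ((hT σ).2 hne)
        rw [this, ite_self]
    · -- t ≠ 0, but t = 0 modulo the primes
      have hdvd : ∀ u, ℓ u ∣ (t u).val := by
        intro u
        have h1 : (((t u).val : ℕ) : ZMod (ℓ u)) = 0 := congrFun htb u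
        exact (ZMod.natCast_eq_zero_iff _ _).1 h1
      choose s hs using hdvd
      obtain ⟨σ₁, hσ₁⟩ := hTne
      let C : Finset S := T.filter (fun σ => ∀ u, E σ u = E σ₁ u)
      have hC : ∀ σ, σ ∈ C → σ ∈ T ∧ ∀ a j, a ≠ i → j ≠ i → B σ₁ a j = B σ a j := fun σ hσ =>
        ⟨(Finset.mem_filter.1 hσ).1, (hcls σ₁ σ).1 (Finset.mem_filter.1 hσ).2⟩
      let e' : S → Fin (k + 1) → ℕ := fun σ u => (bet i (B σ) (H u) + Z0).toNat
      have hen : ∀ σ u, ((e' σ u : ℕ) : ℤ) = bet i (B σ) (H u) + Z0 := by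
        intro σ u
        refine Int.toNat_of_nonneg ?_
        have := b0 σ u
        omega
      refine T2 S C c e' s ⟨σ₁, Finset.mem_filter.2 ⟨hσ₁, fun _ => rfl⟩⟩
        (fun σ hσ => ⟨hca' σ, (hT σ).1 (hC σ hσ).1⟩) ?_ ?_ ?_ ?_
      · intro σ _ u
        have h1 := hen σ u
        have h2 := b0 σ u
        omega
      · intro u σ hσ τ hτ heq
        by_contra hne
        have hb : bet i (B σ) (H u) = bet i (B τ) (H u) := by
          have h1 := hen σ u
          have h2 := hen τ u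
          rw [heq] at h1
          omega
        have hag : ∀ a j, a ≠ i → j ≠ i → B σ a j = B τ a j := fun a j ha hj =>
          ((hC σ hσ).2 a j ha hj).symm.trans ((hC τ hτ).2 a j ha hj)
        have hda : ∃ a, B σ a i ≠ B τ a i := by
          by_contra hno
          push Not at hno
          apply hne
          apply hinj
          funext a j
          by_cases hj : j = i
          · rw [hj, hno a]
          · by_cases ha : a = i
            · rw [ha]
              have e1 := (hB σ).anti i j (Ne.symm hj)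
              have e2 := (hB τ).anti i j (Ne.symm hj)
              have e3 := hno j
              omega
            · exact hag a j ha hj
        revert hb
        refine Fin.lastCases ?_ (fun u' => ?_) u
        · intro hb
          rw [Hl] at hb
          refine hbetl (B σ - B τ) ((hB σ).dif (hB τ)) ?_ ?_
          · obtain ⟨a, ha⟩ := hda
            exact ⟨a, by rw [Pi.sub_apply, Pi.sub_apply]; exact sub_ne_zero.2 ha⟩
          · rw [ax_bet_sub, hb, sub_self]
        · intro hb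
          rw [Hc] at hb
          exact d4 u' σ (hC σ hσ).1 τ (hC τ hτ).1 hda hag hb
      · obtain ⟨u, hu⟩ : ∃ u, t u ≠ 0 := by
          by_contra hno
          push Not at hno
          exact ht (funext hno)
        refine ⟨u, ?_⟩
        rw [← hs u]
        refine (hζ u).pow_ne_one_of_pos_of_lt ?_ (ZMod.val_lt (t u))
        intro h4
        exact hu ((ZMod.val_eq_zero (t u)).1 h4)
      · have hkey : ∀ σ ∈ C, (∏ u, ζ u ^ e σ u) * ∏ u, (ζ u ^ (ℓ u * s u)) ^ Z0 =
            (∏ u, ζ u ^ ((alp i (B σ₁) (H u) (W u) : ℤ) : ZMod (ℓ u ^ (κ u + 1))).val) *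
              ∏ u, (ζ u ^ (ℓ u * s u)) ^ e' σ u := by
          intro σ hσ
          rw [← Finset.prod_mul_distrib, ← Finset.prod_mul_distrib]
          refine Finset.prod_congr rfl fun u _ => ?_
          rw [← pow_mul, ← pow_mul, ← pow_add, ← pow_add]
          refine pow_eq_pow_of_modEq ?_ (hζ u).pow_eq_one
          rw [← ZMod.natCast_eq_natCast_iff]
          have h5 : ((ℓ u * s u : ℕ) : ZMod (ℓ u ^ (κ u + 1))) = t u := by
            rw [← hs u, ZMod.natCast_zmod_val]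
          have h6 : ((e' σ u : ℕ) : ZMod (ℓ u ^ (κ u + 1))) =
              ((bet i (B σ) (H u) : ℤ) : ZMod (ℓ u ^ (κ u + 1))) + (Z0 : ZMod (ℓ u ^ (κ u + 1))) := by
            have h7 := congrArg (fun z : ℤ => (z : ZMod (ℓ u ^ (κ u + 1)))) (hen σ u)
            beta_reduce at h7
            push_cast at h7
            exact h7
          rw [Nat.cast_add, Nat.cast_add, Nat.cast_mul (ℓ u * s u) Z0,
            Nat.cast_mul (ℓ u * s u) (e' σ u), h5, h6, he', ZMod.natCast_zmod_val,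
            halp σ₁ σ (hC σ hσ).2 u]
          ring
        have h1 := hcl σ₁
        have h2 : (∑ σ ∈ C, c σ * ∏ u, ζ u ^ e σ u) * ∏ u, (ζ u ^ (ℓ u * s u)) ^ Z0 =
            (∏ u, ζ u ^ ((alp i (B σ₁) (H u) (W u) : ℤ) : ZMod (ℓ u ^ (κ u + 1))).val) *
              ∑ σ ∈ C, c σ * ∏ u, (ζ u ^ (ℓ u * s u)) ^ e' σ u := by
          rw [Finset.sum_mul, Finset.mul_sum]
          refine Finset.sum_congr rfl fun σ hσ => ?_
          rw [mul_assoc, hkey σ hσ]
          ring
        rw [h1, zero_mul] at h2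
        rcases mul_eq_zero.1 h2.symm with h3 | h3
        · exact absurd h3 (Finset.prod_ne_zero_iff.2 fun u _ => pow_ne_zero _ (hζ0 u))
        · exact h3

end ALK
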