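import Pool.Agent.Work.MP_05d08f_al.AX.Defs
import Pool.Agent.Work.MP_05d08f_al.AX.P6

set_option autoImplicit false

/-!
# P7: existence of data over the algebraic closure of a prime field (size S-M, adapt `AS/E04.lean`)

`prod_char'`: the statement of `prod_char` (AS/E04) for arbitrary moduli `q u ≠ 0`; the proof there never
uses that `p u` is prime nor the characteristic; copy it.

`exists_data_p`: as `exists_data` (AS/E04): apply `nonvan_p` with `S = Perm (Fin m)`, `B = Bw i` (`Bw_tour`,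
`Bw_inj`), the condition on `t` is `t ≠ 0 ∨ ¬ TL c i` by `Bw_off`. `hfin`: `c σ` is algebraic over `ZMod p`, so
`c σ ^ (p ^ a) = c σ` for some `a ≥ 1` (the field `(ZMod p)(c σ)` is finite: `IntermediateField.adjoin` with
`FiniteDimensional`, hence `Finite`, `FiniteField.pow_card`, the cardinality is a power of `p`,
`FiniteField.card`). We get a `Dag m i` with `q u = ℓ u ^ (κ u + 1)`;
`card G = ∏ ℓ_u ^ (κ_u + 1) ≠ 0` in `Ω` as `ℓ_u ≠ p`, and its prime factors are the `ℓ_u > X`. `special_point` (AS/E03)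
with the character of `prod_char'` gives `D, φ`.
-/

namespace ALK

open Equiv MLI Matrix

theorem prod_char' {Ω : Type*} [Field Ω] {k : ℕ} (q : Fin k → ℕ) [∀ u, NeZero (q u)]
    (ζ : Fin k → Ω) (hζ : ∀ u, IsPrimitiveRoot (ζ u) (q u)) :
    ∃ ψ : AddChar (∀ u, ZMod (q u)) Ω, (∀ x, ψ x = ∏ u, ζ u ^ (x u).val) ∧
      ∀ a, a ≠ 0 → ∑ x, ψ (a * x) = 0 := by
  classical
  let ψ : AddChar (∀ u, ZMod (q u)) Ω :=
    ∏ u, (AddChar.zmodChar (q u) (hζ u).pow_eq_one).compAddMonoidHom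
      (Pi.evalAddMonoidHom (fun u => ZMod (q u)) u)
  have hψ : ∀ x, ψ x = ∏ u, ζ u ^ (x u).val := by
    intro x
    show (∏ u, (AddChar.zmodChar (q u) (hζ u).pow_eq_one).compAddMonoidHom
      (Pi.evalAddMonoidHom (fun u => ZMod (q u)) u)) x = _
    rw [AddChar.prod_apply]
    rfl
  refine ⟨ψ, hψ, fun a ha => ?_⟩
  obtain ⟨u, hu⟩ : ∃ u, a u ≠ 0 := by
    by_contra hcon
    push Not at hcon
    exact ha (funext hcon)
  have hne : AddChar.mulShift ψ a ≠ 1 := by
    intro h1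
    have h2 : AddChar.mulShift ψ a (Pi.single u 1) = 1 := by rw [h1]; rfl
    rw [AddChar.mulShift_apply, hψ, Finset.prod_eq_single u] at h2
    · have h3 : (a * Pi.single u (1 : ZMod (q u)) : ∀ u, ZMod (q u)) u = a u := by
        rw [Pi.mul_apply, Pi.single_eq_same, mul_one]
      rw [h3] at h2
      refine (hζ u).pow_ne_one_of_pos_of_lt ?_ (ZMod.val_lt (a u)) h2
      intro h4
      exact hu ((ZMod.val_eq_zero (a u)).1 h4)
    · intro v _ hv
      have h3 : (a * Pi.single u (1 : ZMod (q u)) : ∀ u, ZMod (q u)) v = 0 := by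
        rw [Pi.mul_apply, Pi.single_eq_of_ne hv, mul_zero]
      rw [h3, ZMod.val_zero, pow_zero]
    · intro h
      exact absurd (Finset.mem_univ u) h
  have h5 := AddChar.sum_eq_zero_of_ne_one hne
  rw [← h5]
  exact Finset.sum_congr rfl fun x _ => AddChar.mulShift_apply.symm

private theorem exists_frob {Ω : Type*} [Field Ω] (p : ℕ) [Fact p.Prime] [CharP Ω p]
    [Algebra (ZMod p) Ω] [Algebra.IsAlgebraic (ZMod p) Ω] (x : Ω) :
    ∃ a, 1 ≤ a ∧ x ^ (p ^ a) = x := by
  have hx : IsIntegral (ZMod p) x := (Algebra.IsAlgebraic.isAlgebraic x).isIntegral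
  have : FiniteDimensional (ZMod p) (IntermediateField.adjoin (ZMod p) {x}) :=
    IntermediateField.adjoin.finiteDimensional hx
  have : Finite (IntermediateField.adjoin (ZMod p) {x}) := Module.finite_of_finite (ZMod p)
  have := Fintype.ofFinite (IntermediateField.adjoin (ZMod p) {x})
  have : CharP (IntermediateField.adjoin (ZMod p) {x}) p :=
    charP_of_injective_algebraMap (algebraMap (ZMod p) _).injective p
  obtain ⟨n, _, hn⟩ := FiniteField.card (IntermediateField.adjoin (ZMod p) {x}) p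
  refine ⟨n, n.pos, ?_⟩
  have h1 := FiniteField.pow_card
    (⟨x, IntermediateField.mem_adjoin_simple_self (ZMod p) x⟩ :
      IntermediateField.adjoin (ZMod p) {x})
  rw [hn] at h1
  have h2 := congrArg (fun y : IntermediateField.adjoin (ZMod p) {x} => (y : Ω)) h1
  simpa using h2

theorem exists_data_p {Ω : Type*} [Field Ω] [IsAlgClosed Ω] (p : ℕ) [Fact p.Prime] [CharP Ω p]
    [Algebra (ZMod p) Ω] [Algebra.IsAlgebraic (ZMod p) Ω] {m : ℕ} (c : Perm (Fin m) → Ω)
    (hc : c ≠ 0) (i : Fin m) (X : ℕ) :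
    ∃ d : Dag m i, (∀ s : ℕ, s.Prime → s ∣ Fintype.card d.G → X < s) ∧ Good c d := by
  classical
  obtain ⟨k, ℓ, κ, ζ, h, ω, hpz, hi, hsub, hR⟩ :=
    nonvan_p p i (Bw i) (Bw_tour i) (Bw_inj i) c hc (fun σ => exists_frob p (c σ)) X
  let d : Dag m i := ⟨k, fun u => ℓ u ^ (κ u + 1), fun u => pow_ne_zero _ (hpz u).1.ne_zero, h, hi,
    hsub⟩
  have hNZ : ∀ u, NeZero (ℓ u ^ (κ u + 1)) := fun u => ⟨pow_ne_zero _ (hpz u).1.ne_zero⟩
  have hNZ' : ∀ u, NeZero (d.q u) := fun u => ⟨pow_ne_zero _ (hpz u).1.ne_zero⟩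
  have hcard : Fintype.card d.G = ∏ u : Fin k, ℓ u ^ (κ u + 1) := by
    rw [Fintype.card_pi]
    refine Finset.prod_congr rfl fun u _ => ?_
    exact ZMod.card (d.q u)
  refine ⟨d, ?_, ?_, ?_⟩
  · intro s hs hdvd
    rw [hcard, hs.prime.dvd_finsetProd_iff] at hdvd
    obtain ⟨u, _, hu⟩ := hdvd
    have h1 := hs.dvd_of_dvd_pow hu
    rw [(Nat.prime_dvd_prime_iff_eq hs (hpz u).1).1 h1]
    exact (hpz u).2.1
  · rw [hcard, Nat.cast_prod, Finset.prod_ne_zero_iff]
    intro u _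
    rw [Nat.cast_pow]
    refine pow_ne_zero _ fun h0 => ?_
    rw [CharP.cast_eq_zero_iff Ω p] at h0
    exact (hpz u).2.2.1
      ((Nat.prime_dvd_prime_iff_eq (Fact.out : p.Prime) (hpz u).1).1 h0).symm
  obtain ⟨ψ, hψ, hψ0⟩ := prod_char' d.q ζ fun u => (hpz u).2.2.2
  refine special_point ψ hψ0 ?_ c i d.h ω hi ?_
  · rw [hcard, Nat.cast_prod, Finset.prod_ne_zero_iff]
    intro u _
    rw [Nat.cast_pow]
    refine pow_ne_zero _ fun h0 => ?_
    rw [CharP.cast_eq_zero_iff Ω p] at h0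
    exact (hpz u).2.2.1
      ((Nat.prime_dvd_prime_iff_eq (Fact.out : p.Prime) (hpz u).1).1 h0).symm
  · intro t ht
    simp only [hψ]
    refine hR t ?_
    rcases ht with ht | ht
    · exact Or.inl ht
    · right
      unfold TL at ht
      push Not at ht
      obtain ⟨σ₀, hσ₀⟩ := ht
      refine ⟨σ₀, ?_⟩
      intro h0
      apply hσ₀
      refine (Finset.sum_congr rfl fun σ _ => ?_).trans h0
      by_cases hb : wr σ i ++ wl σ i = wr σ₀ i ++ wl σ₀ i
      · rw [if_pos hb, if_pos ((Bw_off i σ σ₀).2 hb)]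
      · rw [if_neg hb, if_neg (fun h6 => hb ((Bw_off i σ σ₀).1 h6))]

end ALK
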