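import Mathlib

set_option autoImplicit false

/-!
# U1: ultraproducts of finite fields
-/

namespace ALK

theorem exists_ultra (K : ℕ → Type) [∀ q, Field (K q)] [∀ q, Finite (K q)]
    (hK : ∀ q, q ≤ Nat.card (K q)) :
    ∃ (F : Type) (_ : Field F) (_ : Infinite F) (π : (∀ q, K q) →+* F) (U : Ultrafilter ℕ),
      Function.Surjective π ∧ ∀ x, π x = 0 ↔ ∀ᶠ q in (U : Filter ℕ), x q = 0 := by
  classical
  let U : Ultrafilter ℕ := Filter.hyperfilter ℕ
  let I : Ideal (∀ q, K q) :=
    { carrier := {x | ∀ᶠ q in (U : Filter ℕ), x q = 0}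
      add_mem' := by
        intro a b ha hb
        filter_upwards [ha, hb] with q h1 h2
        rw [Pi.add_apply, h1, h2, add_zero]
      zero_mem' := Filter.Eventually.of_forall fun q => rfl
      smul_mem' := by
        intro a b hb
        filter_upwards [hb] with q h1
        rw [smul_eq_mul, Pi.mul_apply, h1, mul_zero] }
  have hI : ∀ x, x ∈ I ↔ ∀ᶠ q in (U : Filter ℕ), x q = 0 := fun x => Iff.rfl
  have hmax : I.IsMaximal := by
    refine Ideal.Quotient.maximal_of_isField _ ?_
    refine ⟨⟨0, 1, ?_⟩, mul_comm, ?_⟩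
    · intro h
      have h1 : (Ideal.Quotient.mk I) 1 = 0 := by rw [map_one]; exact h.symm
      rw [Ideal.Quotient.eq_zero_iff_mem, hI] at h1
      obtain ⟨q, hq⟩ := h1.exists
      exact one_ne_zero hq
    · intro a ha
      obtain ⟨x, rfl⟩ := Ideal.Quotient.mk_surjective a
      have hx : ¬ ∀ᶠ q in (U : Filter ℕ), x q = 0 := by
        rw [← hI, ← Ideal.Quotient.eq_zero_iff_mem]
        exact ha
      rw [← Ultrafilter.eventually_not] at hx
      refine ⟨Ideal.Quotient.mk I (fun q => (x q)⁻¹), ?_⟩
      rw [← map_mul, ← map_one (Ideal.Quotient.mk I), ← sub_eq_zero, ← map_sub,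
        Ideal.Quotient.eq_zero_iff_mem, hI]
      filter_upwards [hx] with q hq
      rw [Pi.sub_apply, Pi.mul_apply, Pi.one_apply, mul_inv_cancel₀ hq, sub_self]
  let F : Type := (∀ q, K q) ⧸ I
  let hF : Field F := Ideal.Quotient.field I
  have hinf : Infinite F := by
    refine ⟨fun hfin => ?_⟩
    let N := Nat.card F + 1
    have hemb : ∀ q, N ≤ q → ∃ e : Fin N → K q, Function.Injective e := by
      intro q hq
      have h1 : N ≤ Nat.card (K q) := hq.trans (hK q)
      let e : Fin (Nat.card (K q)) ≃ K q := (Finite.equivFin (K q)).symm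
      exact ⟨fun i => e (Fin.castLE h1 i), fun i j h => Fin.castLE_injective h1 (e.injective h)⟩
    let g : ∀ q, Fin N → K q := fun q => if h : N ≤ q then Classical.choose (hemb q h) else 0
    have hg : ∀ q, N ≤ q → Function.Injective (g q) := by
      intro q hq
      have h1 : g q = Classical.choose (hemb q hq) := dif_pos hq
      rw [h1]
      exact Classical.choose_spec (hemb q hq)
    let G : Fin N → F := fun i => Ideal.Quotient.mk I fun q => g q i
    have hG : Function.Injective G := by
      intro i j hij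
      by_contra hne
      have h1 : Ideal.Quotient.mk I ((fun q => g q i) - fun q => g q j) = 0 := by
        rw [map_sub, sub_eq_zero]
        exact hij
      rw [Ideal.Quotient.eq_zero_iff_mem, hI] at h1
      have h2 : ∀ᶠ q in (U : Filter ℕ), N ≤ q :=
        Filter.Eventually.filter_mono (Nat.hyperfilter_le_atTop) (Filter.eventually_ge_atTop N)
      obtain ⟨q, hq1, hq2⟩ := (h1.and h2).exists
      rw [Pi.sub_apply, sub_eq_zero] at hq1
      exact hne (hg q hq2 hq1)
    have h3 := Nat.card_le_card_of_injective G hG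
    rw [Nat.card_eq_fintype_card, Fintype.card_fin] at h3
    omega
  refine ⟨F, hF, hinf, Ideal.Quotient.mk I, U, Ideal.Quotient.mk_surjective, fun x => ?_⟩
  rw [Ideal.Quotient.eq_zero_iff_mem, hI]

end ALK
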