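import Pool.Agent.Work.MP_05d08f_al.AX.Defs

set_option autoImplicit false

/-!
# X2: joining (size S-M; compare `ZB.join` in `AS/A03.lean`)

`DB.join`: let `A ~ A₁` with blocks `d : β → Dag m i` and `D ~ D₁` with blocks `d' : β' → Dag m i`. Then
`fromBlocks A b c D ~ fromBlocks A₁ b' c' D₁` by block diagonal matrices (see AS/A03), and reindexing
by `Equiv.sumSigmaDistrib`-like equivalence
`(Σ b : β ⊕ β', (Sum.elim d d' b).G) ≃ (Σ b, (d b).G) ⊕ (Σ b, (d' b).G)` (`Sim.submatrix`) gives a matrix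
indexed by the blocks `Sum.elim d d'` with the same diagonal blocks.

`DB.diag`: one block: `β = Unit`, `d = fun _ => d₁`, reindexing along an equivalence
`(Σ _ : Unit, d₁.G) ≃ Fin n` (`card d₁.G = n`); the function `y` is transported.

`DB.of_sim` is immediate (`Sim.trans`).
-/

namespace ALK

open Matrix Equiv MLI

variable {K : Type*} [Field K] {m : ℕ} {i : Fin m} {tz : Prop} {d₁ d₂ : Dag m i}
  {ι κ : Type*} [Fintype ι] [DecidableEq ι] [Fintype κ] [DecidableEq κ]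

theorem DB.of_sim {A : Matrix ι ι K} {A' : Matrix κ κ K} (h : Sim A A') (h' : DB tz d₁ d₂ A') :
    DB tz d₁ d₂ A := by
  obtain ⟨β, i1, i2, d, A₁, hd, hs, hA⟩ := h'
  exact ⟨β, i1, i2, d, A₁, hd, h.trans hs, hA⟩

theorem DB.join {A : Matrix ι ι K} {D : Matrix κ κ K} (b : Matrix ι κ K) (c : Matrix κ ι K)
    (hA : DB tz d₁ d₂ A) (hD : DB tz d₁ d₂ D) : DB tz d₁ d₂ (Matrix.fromBlocks A b c D) := by
  classical
  obtain ⟨β, _, _, d, A₁, hd, ⟨P, Q, h1, h2, h3⟩, hz⟩ := hA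
  obtain ⟨β', _, _, d', D₁, hd', ⟨P', Q', h1', h2', h3'⟩, hz'⟩ := hD
  have hs : Sim (Matrix.fromBlocks A b c D)
      (Matrix.fromBlocks A₁ (Q * b * P') (Q' * c * P) D₁) := by
    refine ⟨Matrix.fromBlocks P 0 0 P', Matrix.fromBlocks Q 0 0 Q', ?_, ?_, ?_⟩
    · rw [Matrix.fromBlocks_multiply]
      simp only [Matrix.mul_zero, Matrix.zero_mul, add_zero, zero_add, h1, h1',
        Matrix.fromBlocks_one]
    · rw [Matrix.fromBlocks_multiply]
      simp only [Matrix.mul_zero, Matrix.zero_mul, add_zero, zero_add, h2, h2',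
        Matrix.fromBlocks_one]
    · rw [Matrix.fromBlocks_multiply, Matrix.fromBlocks_multiply]
      simp only [Matrix.mul_zero, Matrix.zero_mul, add_zero, zero_add, h3, h3']
  let e : (Σ b : β ⊕ β', (Sum.elim d d' b).G) ≃ (Σ b, (d b).G) ⊕ (Σ b, (d' b).G) :=
    Equiv.sumSigmaDistrib (fun b => (Sum.elim d d' b).G)
  refine ⟨β ⊕ β', inferInstance, inferInstance, Sum.elim d d',
    (Matrix.fromBlocks A₁ (Q * b * P') (Q' * c * P) D₁).submatrix e e, ?_,
    hs.trans (Sim.submatrix _ e), ?_⟩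
  · rintro (b | b)
    · exact hd b
    · exact hd' b
  · rintro (b | b)
    · obtain ⟨y, hy, hy'⟩ := hz b
      exact ⟨y, hy, fun x x' => hy' x x'⟩
    · obtain ⟨y, hy, hy'⟩ := hz' b
      exact ⟨y, hy, fun x x' => hy' x x'⟩

theorem DB.diag {n : ℕ} (hn : Fintype.card d₁.G = n) (y : Fin n → K) (hy : tz → ∑ x, y x = 0) :
    DB tz d₁ d₂ (Matrix.diagonal y) := by
  classical
  let g : d₁.G ≃ Fin n := Fintype.equivFinOfCardEq hn
  let e : (Σ _ : Unit, d₁.G) ≃ Fin n := (Equiv.uniqueSigma (fun _ : Unit => d₁.G)).trans g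
  have he : ∀ b x, e ⟨b, x⟩ = g x := fun b x => rfl
  refine ⟨Unit, inferInstance, inferInstance, fun _ => d₁, (Matrix.diagonal y).submatrix e e,
    fun _ => Or.inl rfl, Sim.submatrix _ e, fun b => ⟨fun x => y (g x), fun h => ?_, fun x x' => ?_⟩⟩
  · rw [Equiv.sum_comp g y]
    exact hy h
  · rw [Matrix.submatrix_apply, Matrix.diagonal_apply, he, he]
    by_cases hx : x = x'
    · rw [if_pos hx, if_pos (by rw [hx])]
    · rw [if_neg hx, if_neg fun h => hx (g.injective h)]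

end ALK
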